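import Pool.Agent.Lib.MTR.Idx

/-!
# MP_5d7b92: every large even number, a condition on the index, almost primes

For every set `S` of integers which meets every interval of `m` consecutive integers, every large even
number `N` is `p + a` with `p` prime, `π(p) ∈ S` and `a` a product of fewer than `r = r(m)` primes, all
greater than `N^(1/r)`; there are even `m` consecutive primes `p`, in a bounded interval, with this property.
-/

set_option autoImplicit false

open Finset

namespace Pool.Agent.Results.MP_5d7b92_nt.EveryEvenNumber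

/-- `S` meets `{n + 1, ..., n + m}` for every `n ≤ Y` -/
def Meets (m Y : ℕ) (S : Set ℕ) : Prop := ∀ n : ℕ, n ≤ Y → ∃ b ∈ S, n < b ∧ b ≤ n + m

/-- `p ≤ 3N/4`, `N - p` has fewer than `r` prime factors (with multiplicity) and all of them are `> N^(1/r)` -/
def Good (r N p : ℕ) : Prop :=
  4 * p ≤ 3 * N ∧ (N - p).primeFactorsList.length < r ∧ ∀ q : ℕ, q.Prime → q ∣ N - p → N < q ^ r

/-- `k` has no prime factor `≤ z` -/
def Rough (z k : ℕ) : Prop := ∀ q : ℕ, q.Prime → q ∣ k → z < q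

open Classical in
/-- the number of primes `p < N` with `π(p) ∈ S` and `Good r N p` -/
noncomputable def count (r : ℕ) (S : Set ℕ) (N : ℕ) : ℕ :=
  ((range N).filter (fun p => p.Prime ∧ Nat.primeCounting p ∈ S ∧ Good r N p)).card

open Classical in
/-- the number of `i < N` such that the `m` consecutive primes from the one with (0-based) number `i` on
are in an interval of length `H` and `Good r N` -/
noncomputable def runs (m r H N : ℕ) : ℕ :=
  ((range N).filter (fun i => ∀ j < m, Nat.nth Nat.Prime (i + j) ≤ Nat.nth Nat.Prime i + H ∧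
    Good r N (Nat.nth Nat.Prime (i + j)))).card

private theorem list_pow (N r : ℕ) (l : List ℕ) (h : ∀ q ∈ l, N < q ^ r) : N ^ l.length ≤ l.prod ^ r := by
  induction l with
  | nil => simp
  | cons a l ih =>
    rw [List.length_cons, List.prod_cons, pow_succ, mul_pow, mul_comm]
    exact Nat.mul_le_mul (h a List.mem_cons_self).le (ih fun q hq => h q (List.mem_cons_of_mem a hq))

private theorem length_lt (N r a : ℕ) (hr : 1 ≤ r) (ha0 : 1 ≤ a) (haN : a < N)
    (h : ∀ q : ℕ, q.Prime → q ∣ a → N < q ^ r) : a.primeFactorsList.length < r := by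
  by_contra hc
  rw [not_lt] at hc
  have h1 := list_pow N r a.primeFactorsList (fun q hq =>
    h q (Nat.prime_of_mem_primeFactorsList hq) (Nat.dvd_of_mem_primeFactorsList hq))
  rw [Nat.prod_primeFactorsList (by omega)] at h1
  have h2 : N ^ r ≤ N ^ a.primeFactorsList.length := Nat.pow_le_pow_right (by omega) hc
  have h3 : a ^ r < N ^ r := Nat.pow_lt_pow_left haN (by omega)
  omega

private theorem good_of {r N p : ℕ} (hr : 1 ≤ r) (hp : 1 ≤ p) (hN : 1 ≤ N) (h4 : 4 * p ≤ 3 * N)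
    (h : ∀ q : ℕ, q.Prime → q ∣ N - p → N < q ^ r) : Good r N p :=
  ⟨h4, length_lt N r (N - p) hr (by omega) (by omega) h, h⟩

private theorem good_mono {r s N p : ℕ} (h : Good r N p) (hrs : r ≤ s) : Good s N p := by
  refine ⟨h.1, lt_of_lt_of_le h.2.1 hrs, fun q hq hd => lt_of_lt_of_le (h.2.2 q hq hd) ?_⟩
  exact Nat.pow_le_pow_right hq.pos hrs

private theorem part1 (m : ℕ) : ∃ r C N₀ : ℕ, ∀ N : ℕ, N₀ ≤ N → Even N → ∀ S : Set ℕ, Meets m N S →
    N / (Real.log N) ^ C ≤ (count r S N : ℝ) := by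
  classical
  rcases Nat.eq_zero_or_pos m with hm | hm
  · refine ⟨0, 0, 0, fun N _ _ S hS => ?_⟩
    obtain ⟨b, -, h1, h2⟩ := hS 0 (Nat.zero_le _)
    omega
  obtain ⟨r, C, N₀, hr, h⟩ := Pool.Agent.Lib.MTR.every m hm
  refine ⟨r, C, max N₀ 1, fun N hN hE S hS => ?_⟩
  rw [max_le_iff] at hN
  refine (h N hN.1 hE (fun b => b ∈ S) (fun n hn => ?_)).trans ?_
  · obtain ⟨b, b1, b2, b3⟩ := hS n hn
    exact ⟨b, b2, b3, b1⟩
  · rw [Nat.cast_le]
    unfold count
    apply card_le_card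
    intro p hp
    rw [mem_filter] at hp ⊢
    obtain ⟨p0, -, p1, p2, p3, p4⟩ := hp
    exact ⟨p0, p2, p3, good_of hr p2.one_le hN.2 p1 p4⟩

private theorem part2 (m : ℕ) : ∃ r H C N₀ : ℕ, ∀ N : ℕ, N₀ ≤ N → Even N →
    N / (Real.log N) ^ C ≤ (runs m r H N : ℝ) := by
  classical
  rcases Nat.eq_zero_or_pos m with hm | hm
  · refine ⟨0, 0, 0, 0, fun N _ _ => ?_⟩
    unfold runs
    rw [hm, pow_zero, div_one, filter_true_of_mem (fun i _ j hj => absurd hj (Nat.not_lt_zero j)),
      card_range]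
  obtain ⟨r, H, C, N₀, hr, h⟩ := Pool.Agent.Lib.MTR.consec m hm
  refine ⟨r, H, C, max N₀ 1, fun N hN hE => ?_⟩
  rw [max_le_iff] at hN
  refine (h N hN.1 hE).trans ?_
  rw [Nat.cast_le]
  unfold runs
  apply card_le_card
  intro i hi
  rw [mem_filter] at hi ⊢
  refine ⟨hi.1, fun j hj => ?_⟩
  obtain ⟨p0, -, p1, p2⟩ := hi.2 j hj
  exact ⟨p0, good_of hr (Nat.prime_nth_prime (i + j)).one_le hN.2 p1 p2⟩

private theorem rough_meets (z Y : ℕ) : Meets (primorial z) Y {b | Rough z b} := by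
  intro n _
  have hP := primorial_pos z
  refine ⟨primorial z * (n / primorial z) + 1 + (if n % primorial z = 0 then 0 else primorial z),
    ?_, ?_, ?_⟩
  · intro q hq hd
    by_contra hc
    rw [not_lt] at hc
    have h1 : q ∣ primorial z := (hq.dvd_primorial_iff).mpr hc
    have h2 : q ∣ 1 := by
      have h3 : q ∣ primorial z * (n / primorial z) := Dvd.dvd.mul_right h1 _
      split_ifs at hd
      · rw [add_zero] at hd
        exact (Nat.dvd_add_right h3).mp hd
      · rw [Nat.dvd_add_left h1] at hd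
        exact (Nat.dvd_add_right h3).mp hd
    exact hq.one_lt.ne' (Nat.dvd_one.mp h2)
  · have h1 := Nat.div_add_mod n (primorial z)
    have h2 := Nat.mod_lt n hP
    split_ifs with h
    · omega
    · omega
  · have h1 := Nat.div_add_mod n (primorial z)
    split_ifs with h
    · omega
    · omega

theorem result :
    (∀ m : ℕ, ∃ r C N₀ : ℕ, ∀ N : ℕ, N₀ ≤ N → Even N → ∀ S : Set ℕ, Meets m N S →
      N / (Real.log N) ^ C ≤ (count r S N : ℝ)) ∧
    (∀ m : ℕ, ∃ r H C N₀ : ℕ, ∀ N : ℕ, N₀ ≤ N → Even N →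
      N / (Real.log N) ^ C ≤ (runs m r H N : ℝ)) ∧
    (∀ w : ℕ → ℕ, Filter.Tendsto w Filter.atTop Filter.atTop →
      ∃ z : ℕ → ℕ, Filter.Tendsto z Filter.atTop Filter.atTop ∧ ∃ N₀ : ℕ, ∀ N : ℕ, N₀ ≤ N → Even N →
        ∃ p : ℕ, p.Prime ∧ Rough (z N) (Nat.primeCounting p) ∧ Good (w N) N p) := by
  classical
  refine ⟨part1, part2, fun w hw => ?_⟩
  have h1 : ∀ j : ℕ, ∃ T : ℕ, ∀ N : ℕ, T ≤ N → Even N →
      ∃ p : ℕ, p.Prime ∧ Rough j (Nat.primeCounting p) ∧ Good (w N) N p := by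
    intro j
    obtain ⟨r, C, N₀, h⟩ := part1 (primorial j)
    obtain ⟨N₁, hN₁⟩ := Filter.eventually_atTop.mp (hw.eventually_ge_atTop r)
    refine ⟨max (max N₀ N₁) 3, fun N hN hE => ?_⟩
    simp only [max_le_iff] at hN
    have h2 := h N hN.1.1 hE _ (rough_meets j N)
    have h3 : (3 : ℝ) ≤ N := by exact_mod_cast hN.2
    have h4 : 0 < Real.log N := Real.log_pos (by linarith)
    have h5 : 0 < (count r {b | Rough j b} N : ℝ) := lt_of_lt_of_le (by positivity) h2
    have h6 : 0 < count r {b | Rough j b} N := by exact_mod_cast h5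
    unfold count at h6
    obtain ⟨p, hp⟩ := card_pos.mp h6
    rw [mem_filter] at hp
    exact ⟨p, hp.2.1, hp.2.2.1, good_mono hp.2.2.2 (hN₁ N hN.1.2)⟩
  choose T hT using h1
  obtain ⟨U, hU⟩ : ∃ U : ℕ → ℕ, U = fun j => j + ∑ i ∈ range (j + 1), T i := ⟨_, rfl⟩
  have hU1 : ∀ j, j ≤ U j := fun j => by
    rw [hU]
    exact Nat.le_add_right _ _
  have hU2 : ∀ j, T j ≤ U j := fun j => by
    rw [hU]
    have : T j ≤ ∑ i ∈ range (j + 1), T i :=
      single_le_sum (f := T) (fun _ _ => Nat.zero_le _) (mem_range.mpr (Nat.lt_succ_self j))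
    exact this.trans (Nat.le_add_left _ _)
  -- z N is the largest j with U j ≤ N
  obtain ⟨z, hz⟩ : ∃ z : ℕ → ℕ, z = fun N => Nat.findGreatest (fun j => U j ≤ N) N := ⟨_, rfl⟩
  have hz1 : ∀ N j, U j ≤ N → j ≤ z N := by
    intro N j hj
    rw [hz]
    exact Nat.le_findGreatest ((hU1 j).trans hj) hj
  have hz2 : ∀ N, U 0 ≤ N → U (z N) ≤ N := by
    intro N hN
    rw [hz]
    exact Nat.findGreatest_spec (P := fun j => U j ≤ N) (Nat.zero_le N) hN
  refine ⟨z, ?_, U 0, fun N hN hE => hT (z N) N ((hU2 _).trans (hz2 N hN)) hE⟩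
  rw [Filter.tendsto_atTop_atTop]
  intro j
  exact ⟨U j, fun n hn => hz1 n j hn⟩

end Pool.Agent.Results.MP_5d7b92_nt.EveryEvenNumber
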