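import Pool.Agent.Lib.SW.SC.SC5
import Pool.Agent.Lib.MP_5d7b92_nt.SS.LogScale

/-!
# The local-global principle in every single residue class

`W = ∏_{p ≤ log log X} p`.  (1) For every set `S` of integers up to `X` and in EVERY class `a` modulo
`W`, all but `ε X / W` of the `N ≤ 2X` in the class have the expected number of representations
`N = s + p`, `s ∈ S`, `p` prime.  (2) Since multiples of `W` have no local obstruction, almost all
multiples of `W` are sums of a prime-indexed prime and a prime, with an asymptotic formula.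
(3), (4) The exact worst case for the multiples of any divisor `m` of `W`.
(5) A proportion `≥ c / log₄ X` of all `n ≤ X` satisfies `2 n = p + q` with `p` prime-indexed of size
about `log X` and `q` prime.
-/

open Finset

namespace Pool.Agent.Results.MP_5d7b92_nt.SingleClasses

/-- The product of the primes up to `log log X`. -/
noncomputable def W (X : ℕ) : ℕ :=
  ∏ p ∈ (range (⌊Real.log (Real.log X)⌋₊ + 1)).filter Nat.Prime, p

/-- `W/φ(W)`. -/
noncomputable def ratio (X : ℕ) : ℝ := (W X : ℝ) / (Nat.totient (W X) : ℝ)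

/-- The number of `s ∈ S` with `N - s` a prime. -/
def primeCount (S : Finset ℕ) (N : ℕ) : ℕ := (S.filter (fun s => s < N ∧ (N - s).Prime)).card

/-- The number of `s ∈ S`, `s < N`, with `N - s` coprime to `W`. -/
noncomputable def localCount (X : ℕ) (S : Finset ℕ) (N : ℕ) : ℕ :=
  (S.filter (fun s => s < N ∧ Nat.Coprime (N - s) (W X))).card

/-- The number of `s ∈ S` with `a - s` coprime to `W`. -/
noncomputable def classCount (X : ℕ) (S : Finset ℕ) (a : ℕ) : ℕ :=
  (S.filter (fun s : ℕ => IsCoprime ((a : ℤ) - (s : ℤ)) (W X : ℤ))).card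

/-- The primes (`j = 0`), the prime-indexed primes (`j = 1`), and so on: `p` belongs to the
`(j+1)`-st class if `p` is prime and `π(p)` belongs to the `j`-th class. -/
def Indexed : ℕ → ℕ → Prop
  | 0, p => p.Prime
  | j + 1, p => p.Prime ∧ Indexed j (Nat.primeCounting p)

/-- `S` is a set of primes up to `X` with at least `Y / (log Y)^K` elements up to `Y`, for all
`√X ≤ Y ≤ X`. -/
def Dense (K X : ℕ) (S : Finset ℕ) : Prop :=
  (∀ s ∈ S, s.Prime ∧ s ≤ X) ∧
  ∀ Y : ℕ, Real.sqrt X ≤ Y → Y ≤ X →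
    Y / (Real.log Y) ^ K ≤ ((S.filter (fun s => s ≤ Y)).card : ℝ)

/-- The number of `N ≤ X` divisible by `m` such that `N - s` is prime for some `s ∈ S`. -/
def multCount (X m : ℕ) (S : Finset ℕ) : ℕ :=
  ((Icc 1 X).filter (fun N => m ∣ N ∧ ∃ s ∈ S, s < N ∧ (N - s).Prime)).card

open Pool.Agent.Lib.SW

theorem Indexed_iff : ∀ j p : ℕ, Indexed j p ↔ PI j p
  | 0, _ => Iff.rfl
  | j + 1, p => by
      show p.Prime ∧ Indexed j (Nat.primeCounting p) ↔ p.Prime ∧ PI j (Nat.primeCounting p)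
      rw [Indexed_iff j]

theorem mult_of_theta (K X m : ℕ) (S : Finset ℕ) (hX : 3 ≤ X) :
    (((Icc 1 X).filter (fun N => m ∣ N ∧
      X / (Real.log X) ^ (K + 6) ≤ (reps S N : ℝ))).card : ℝ) ≤ (multCount X m S : ℝ) := by
  unfold multCount
  refine Nat.cast_le.2 (card_le_card ?_)
  intro N hN
  obtain ⟨hN1, hN2, hN3⟩ := mem_filter.1 hN
  refine mem_filter.2 ⟨hN1, hN2, ?_⟩
  have hXr : (3 : ℝ) ≤ X := by exact_mod_cast hX
  have hL : 0 < Real.log X := Real.log_pos (by linarith)
  have hpos : 0 < X / (Real.log X) ^ (K + 6) := by positivity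
  have h2 : 0 < reps S N := by
    have : (0 : ℝ) < reps S N := lt_of_lt_of_le hpos hN3
    exact_mod_cast this
  unfold reps at h2
  obtain ⟨s, hs⟩ := card_pos.1 h2
  obtain ⟨hs1, hs2, hs3⟩ := mem_filter.1 hs
  exact ⟨s, hs1, hs2, hs3⟩

open Classical in
theorem result :
    -- (1) the local-global principle in every single class modulo `W`, for all sets `S`
    (∀ (K : ℕ) (ε : ℝ), 0 < ε → ∃ X₀ : ℕ, ∀ X : ℕ, X₀ ≤ X → ∀ S : Finset ℕ, S ⊆ Icc 1 X →
      ∀ a : ℕ, (((Icc 1 (2 * X)).filter (fun N => N ≡ a [MOD W X] ∧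
        ε * ratio X * max (classCount X S a : ℝ) (X / (Real.log X) ^ K) / Real.log X <
          |(primeCount S N : ℝ) - ratio X * localCount X S N / Real.log X|)).card : ℝ) ≤
            ε * (X / W X)) ∧
    -- (2) almost all multiples of `W`: asymptotic formula
    (∀ (j : ℕ) (ε : ℝ), 0 < ε → ∃ X₀ : ℕ, ∀ X : ℕ, X₀ ≤ X →
      (((Icc 1 X).filter (fun N => W X ∣ N ∧
        ε * Real.log (Real.log (Real.log X)) * X / (Real.log X) ^ (j + 2) <
          |(((((range N).filter (fun p => Indexed j p ∧ (N - p).Prime)).card : ℕ) : ℝ)) -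
            Real.exp Real.eulerMascheroniConstant * Real.log (Real.log (Real.log X)) * N /
              (Real.log X) ^ (j + 2)|)).card : ℝ) ≤ ε * (X / W X)) ∧
    -- (3) multiples of a divisor `m` of `W`, all dense sets of primes: the exact worst case
    (∀ K : ℕ, 2 ≤ K → ∀ ε : ℝ, 0 < ε → ∃ X₀ : ℕ, ∀ X : ℕ, X₀ ≤ X →
      (∀ S : Finset ℕ, Dense K X S → ∀ m : ℕ, m ∣ W X →
        (1 - ε) * X * ((W X / m).totient : ℝ) / W X ≤ (multCount X m S : ℝ)) ∧
      ∃ S : Finset ℕ, Dense K X S ∧ ∀ m : ℕ, m ∣ W X →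
        (multCount X m S : ℝ) ≤ (1 + ε) * X * ((W X / m).totient : ℝ) / W X) ∧
    -- (4) the (iterated) prime-indexed primes
    (∀ (j : ℕ) (ε : ℝ), 0 < ε → ∃ X₀ : ℕ, ∀ X : ℕ, X₀ ≤ X → ∀ m : ℕ, m ∣ W X →
      (1 - ε) * X * ((W X / m).totient : ℝ) / W X ≤
        (((Icc 1 X).filter (fun N => m ∣ N ∧ ∃ p : ℕ, p < N ∧ Indexed j p ∧
          (N - p).Prime)).card : ℝ)) ∧
    -- (5) all `n`, with `p` of size about `log X`
    (∀ j : ℕ, ∃ c C : ℝ, 0 < c ∧ 0 < C ∧ ∃ X₀ : ℕ, ∀ X : ℕ, X₀ ≤ X →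
      c * X / Real.log (Real.log (Real.log (Real.log X))) ≤
        (((Icc 1 X).filter (fun n => ∃ p q : ℕ, Indexed j p ∧
          (p : ℝ) ≤ C * Real.log X * (Real.log (Real.log X)) ^ (j + 1) ∧ q.Prime ∧
          2 * n = p + q)).card : ℝ)) := by
  refine ⟨?_, ?_, ?_, ?_, ?_⟩
  · intro K ε hε
    obtain ⟨X₀, h⟩ := class_global K ε hε
    exact ⟨X₀, fun X hX S hS a => h X hX S hS a⟩
  · intro j ε hε
    obtain ⟨X₀, h⟩ := multiples j ε hε
    refine ⟨X₀, fun X hX => ?_⟩
    refine le_trans (Nat.cast_le.2 (card_le_card ?_)) (h X hX)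
    intro N hN
    obtain ⟨hN1, hN2, hN3⟩ := mem_filter.1 hN
    refine mem_filter.2 ⟨hN1, hN2, ?_⟩
    have e1 : ((range N).filter (fun p => Indexed j p ∧ (N - p).Prime)).card =
        reps ((Icc 1 X).filter (PI j)) N := by
      unfold reps
      congr 1
      ext p
      rw [mem_filter, mem_filter, mem_filter, mem_Icc, mem_range, Indexed_iff]
      constructor
      · rintro ⟨h1, h2, h3⟩
        exact ⟨⟨⟨(PI_prime j p h2).one_lt.le, by have := (mem_Icc.1 hN1).2; omega⟩, h2⟩, h1, h3⟩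
      · rintro ⟨⟨-, h2⟩, h1, h3⟩
        exact ⟨h1, h2, h3⟩
    rw [e1] at hN3
    exact hN3
  · intro K hK ε hε
    obtain ⟨X₁, h1⟩ := theta_lower K ε hε
    obtain ⟨X₂, h2⟩ := theta_upper ε hε
    refine ⟨max (max X₁ X₂) 9, fun X hX => ⟨?_, ?_⟩⟩
    · intro S hS m hm
      have h3 := h1 X ((le_max_left _ _).trans ((le_max_left _ _).trans hX)) S
        (fun s hs => (hS.1 s hs).1) hS.2 m hm
      exact h3.trans (mult_of_theta K X m S (le_trans (by norm_num) ((le_max_right _ _).trans hX)))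
    · obtain ⟨S, hS1, hS2, hS3⟩ := h2 X ((le_max_right _ _).trans ((le_max_left _ _).trans hX))
      refine ⟨S, ⟨hS1, fun Y hY1 hY2 => ?_⟩, fun m hm => ?_⟩
      · have h4 : 1 ≤ Real.log Y := by
          have h5 : (3 : ℝ) ≤ Real.sqrt X := by
            apply Real.le_sqrt_of_sq_le
            have : (9 : ℝ) ≤ X := by exact_mod_cast (le_max_right _ _).trans hX
            linarith
          have h6 : (3 : ℝ) ≤ Y := h5.trans hY1
          rw [Real.le_log_iff_exp_le (by linarith)]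
          have := Real.exp_one_lt_d9
          linarith
        refine le_trans ?_ (hS2 Y hY1 hY2)
        exact div_le_div_of_nonneg_left (Nat.cast_nonneg _) (by positivity)
          (pow_le_pow_right₀ h4 hK)
      · exact hS3 m hm
  · intro j ε hε
    obtain ⟨X₁, h1⟩ := theta_lower (2 * j + 3) ε hε
    obtain ⟨X₂, h2⟩ := PI_count j
    refine ⟨max X₁ (max (X₂ ^ 2) 3), fun X hX m hm => ?_⟩
    have h3 := h1 X ((le_max_left _ _).trans hX) ((Icc 1 X).filter (PI j))
      (fun s hs => PI_prime j s (mem_filter.1 hs).2) (by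
        intro Y hY1 hY2
        have h3 : X₂ ≤ Y := by
          have h4 : (X₂ : ℝ) ≤ Real.sqrt X := by
            apply Real.le_sqrt_of_sq_le
            exact_mod_cast (le_max_left _ _).trans ((le_max_right _ _).trans hX)
          exact_mod_cast h4.trans hY1
        refine (h2 Y h3).trans (Nat.cast_le.2 (card_le_card ?_))
        intro p hp
        obtain ⟨hp1, hp2⟩ := mem_filter.1 hp
        obtain ⟨hp3, hp4⟩ := mem_Icc.1 hp1
        exact mem_filter.2 ⟨mem_filter.2 ⟨mem_Icc.2 ⟨hp3, hp4.trans hY2⟩, hp2⟩, hp4⟩) m hm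
    refine h3.trans ((mult_of_theta (2 * j + 3) X m _
      ((le_max_right _ _).trans ((le_max_right _ _).trans hX))).trans ?_)
    unfold multCount
    refine Nat.cast_le.2 (card_le_card ?_)
    intro N hN
    obtain ⟨hN1, hN2, s, hs1, hs2, hs3⟩ := mem_filter.1 hN
    exact mem_filter.2 ⟨hN1, hN2, s, hs2, (Indexed_iff j s).2 (mem_filter.1 hs1).2, hs3⟩
  · intro j
    obtain ⟨c, C, hc, hC, X₁, h⟩ := Pool.Agent.Lib.MP_5d7b92_nt.SS.log_scale j
    refine ⟨c, C, hc, hC, max X₁ ⌈Real.exp (Real.exp (Real.exp 1))⌉₊, fun X hX => ?_⟩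
    have hX2 : Real.exp (Real.exp (Real.exp 1)) ≤ X :=
      (Nat.le_ceil _).trans (by exact_mod_cast (le_max_right _ _).trans hX)
    have h1 : Real.exp (Real.exp 1) ≤ Real.log X := by
      rw [Real.le_log_iff_exp_le ((Real.exp_pos _).trans_le hX2)]
      exact hX2
    have h2 : Real.exp 1 ≤ Real.log (Real.log X) := by
      rw [Real.le_log_iff_exp_le ((Real.exp_pos _).trans_le h1)]
      exact h1
    have h3 : (1 : ℝ) ≤ Real.log (Real.log (Real.log X)) := by
      rw [Real.le_log_iff_exp_le ((Real.exp_pos _).trans_le h2)]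
      exact h2
    have h4 := h X 1 ((le_max_left _ _).trans hX) le_rfl (by rw [Nat.cast_one]; exact h3)
    rw [Nat.cast_one, Real.log_one, add_zero, mul_one] at h4
    refine h4.trans (Nat.cast_le.2 (card_le_card ?_))
    intro n hn
    obtain ⟨hn1, p, d, q, hp, hp2, hd1, hd2, hq, hn2⟩ := mem_filter.1 hn
    obtain rfl : d = 1 := le_antisymm hd2 hd1
    rw [one_mul] at hn2
    exact mem_filter.2 ⟨hn1, p, q, (Indexed_iff j p).2 hp, hp2, hq, hn2⟩

end Pool.Agent.Results.MP_5d7b92_nt.SingleClasses
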