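import Pool.Agent.Lib.WL.P2
import Pool.Agent.Lib.WL.C2
import Pool.Agent.Lib.WL.I2
import Pool.Agent.Lib.WL.Ub
import Pool.Agent.Lib.WT.Pj
import Pool.Agent.Lib.WT.Cl
import Pool.Agent.Lib.WT.Ix
import Pool.Agent.Lib.WL.NP
import Pool.Agent.Lib.WT.NP
import Pool.Agent.Lib.MP_5d7b92_nt.UA.TA

/-!
# An arbitrary set plus an almost prime, in windows of length `(log X)^C` and with summands `≤ (log X)^C`

`W = ∏_{p ≤ log log X} p`. For every set `S` of integers, every set `T` of primes (not too small, not too large, not too thin) and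
EVERY class `a` modulo `W` the number of the `s ∈ S` such that `N - s` has exactly `k` prime factors, the least one in `T`, is
asymptotically as expected for almost all `N ≡ a` of the range `(X, X + J]`, in two ranges:
(windows) `S ⊆ [1, 2X]`, `J = H`, and (tiny summands) `S ⊆ [1, H]`, `J = X`, where in both cases `H` may be a power of `log X`.
Then the (iterated) prime-indexed primes, all sets of primes of density `(log X)^(-K)`, and the primes whose index lies in a set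
with bounded gaps.
-/

open Finset

namespace Pool.Agent.Results.MP_5d7b92_nt.WindowsOfLogLength

/-- The product of the primes up to `log log X`. -/
noncomputable def W (X : ℕ) : ℕ :=
  ∏ p ∈ (range (⌊Real.log (Real.log X)⌋₊ + 1)).filter Nat.Prime, p

/-- `W/φ(W)`. -/
noncomputable def ratio (X : ℕ) : ℝ := (W X : ℝ) / (Nat.totient (W X) : ℝ)

/-- The number of the `s ∈ S`, `s < N`, such that `N - s` has exactly `k` prime factors, counted with multiplicity, the least one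
in `T`. -/
def reps (k : ℕ) (T S : Finset ℕ) (N : ℕ) : ℕ :=
  (S.filter fun s => s < N ∧ (N - s).primeFactorsList.length = k ∧ (N - s).minFac ∈ T).card

/-- The number of the `s ∈ S`, `s < N`, with `N - s` coprime to `W`. -/
noncomputable def localCount (X : ℕ) (S : Finset ℕ) (N : ℕ) : ℕ :=
  (S.filter (fun s => s < N ∧ Nat.Coprime (N - s) (W X))).card

/-- The number of the `s ∈ S` with `a - s` coprime to `W`. -/
noncomputable def classCount (X : ℕ) (S : Finset ℕ) (a : ℕ) : ℕ :=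
  (S.filter (fun s : ℕ => IsCoprime ((a : ℤ) - (s : ℤ)) (W X : ℤ))).card

/-- `∑_{q ∈ T} (log (log X / log q))^(k-2) / (q (k-2)!)`. -/
noncomputable def dens (k : ℕ) (T : Finset ℕ) (X : ℕ) : ℝ :=
  ∑ q ∈ T, 1 / (q : ℝ) * ((Real.log (Real.log X / Real.log q)) ^ (k - 2) / (Nat.factorial (k - 2) : ℝ))

/-- The primes (`j = 0`), the prime-indexed primes (`j = 1`), and so on: `p` belongs to the
`(j+1)`-st class if `p` is prime and `π(p)` belongs to the `j`-th class. -/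
def Indexed : ℕ → ℕ → Prop
  | 0, p => p.Prime
  | j + 1, p => p.Prime ∧ Indexed j (Nat.primeCounting p)

/-- The main term for the primes of the `j`-th class: `log log log X · V · D / log X`, where `V` is `N/(log X)^(j+1)` if `Y = 2X`
and `H/(log H)^(j+1)` otherwise, `D = dens k T X`. -/
noncomputable def mainTerm (k j : ℕ) (T : Finset ℕ) (X H Y N : ℕ) : ℝ :=
  Real.log (Real.log (Real.log X)) * (if Y = 2 * X then N / (Real.log X) ^ (j + 1) else H / (Real.log H) ^ (j + 1)) *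
    (dens k T X / Real.log X)

/-- The conditions on the parameters: `N` in `(X, X + J]`, `s ≤ Y` with `(Y, J) = (2X, H)`, `H ≤ X`, or `(Y, J) = (H, X)`, `H² ≤ X`;
`w (log X)^C ≤ H`, `T` a set of primes in `[(log X)^c₀, w]`, `1 ≤ w ≤ X^η`, with `∑_{q ∈ T} 1/q ≥ (log X)^(-B)`. -/
def Cond (c₀ C B : ℕ) (η : ℝ) (X H Y J : ℕ) (w : ℝ) (T : Finset ℕ) : Prop :=
  ((Y = 2 * X ∧ J = H ∧ H ≤ X) ∨ (Y = H ∧ J = X ∧ H * H ≤ X)) ∧ 1 ≤ w ∧ w ≤ (X : ℝ) ^ η ∧ w * (Real.log X) ^ C ≤ H ∧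
    (∀ q ∈ T, q.Prime ∧ (Real.log X) ^ c₀ ≤ q ∧ (q : ℝ) ≤ w) ∧ 1 / (Real.log X) ^ B ≤ ∑ q ∈ T, 1 / (q : ℝ)

open Classical in
/-- `S` is the set of all primes `≤ Y` of the `j`-th class, or any set of primes `≤ min(X, Y)` with at least `Y/(log X)^K` elements. -/
def Dense (j K X Y : ℕ) (S : Finset ℕ) : Prop :=
  S = (Icc 1 Y).filter (Indexed j) ∨ ((∀ s ∈ S, s.Prime ∧ s ≤ X ∧ s ≤ Y) ∧ Y / (Real.log X) ^ K ≤ (S.card : ℝ))

/-- All prime factors of `d` are at most `log log X`. -/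
def Smooth (X d : ℕ) : Prop := ∀ p : ℕ, p.Prime → p ∣ d → (p : ℝ) ≤ Real.log (Real.log X)

open Classical in
/-- The number of the `s ∈ S` with `N = s + d n`, where `d ≤ y` has only prime factors `≤ log log X` and `n` has exactly `k` prime
factors, counted with multiplicity, the least one in `T`. -/
noncomputable def cofReps (k : ℕ) (T S : Finset ℕ) (X : ℕ) (y : ℝ) (N : ℕ) : ℕ :=
  (S.filter fun s => ∃ d n : ℕ, 1 ≤ d ∧ (d : ℝ) ≤ y ∧ Smooth X d ∧ n.primeFactorsList.length = k ∧ n.minFac ∈ T ∧ N = s + d * n).card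

open Classical in
/-- The same with `n` prime: the number of the `s ∈ S` with `N = s + d q`, `q` prime, where `d ≤ y` has only prime factors
`≤ log log X`. -/
noncomputable def cofPrimes (S : Finset ℕ) (X : ℕ) (y : ℝ) (N : ℕ) : ℕ :=
  (S.filter fun s => ∃ d q : ℕ, 1 ≤ d ∧ (d : ℝ) ≤ y ∧ Smooth X d ∧ q.Prime ∧ N = s + d * q).card

open Pool.Agent.Lib.SW Pool.Agent.Lib.WL Pool.Agent.Lib.WT

theorem Indexed_iff : ∀ j p : ℕ, Indexed j p ↔ PI j p
  | 0, _ => Iff.rfl
  | j + 1, p => by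
      show p.Prime ∧ Indexed j (Nat.primeCounting p) ↔ p.Prime ∧ PI j (Nat.primeCounting p)
      rw [Indexed_iff j]

theorem log_ge_one {X : ℕ} (hX : 3 ≤ X) : 1 ≤ Real.log X := by
  have h1 : (3 : ℝ) ≤ X := by exact_mod_cast hX
  rw [Real.le_log_iff_exp_le (by linarith)]
  have := Real.exp_one_lt_d9
  linarith

theorem Cond.mono {c₀ C B c₀' C' : ℕ} {η η' : ℝ} {X H Y J : ℕ} {w : ℝ} {T : Finset ℕ} (h : Cond c₀ C B η X H Y J w T)
    (hX : 3 ≤ X) (hc : c₀' ≤ c₀) (hC : C' ≤ C) (hη : η ≤ η') : Cond c₀' C' B η' X H Y J w T := by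
  obtain ⟨h1, h2, h3, h4, h5, h6⟩ := h
  have hL := log_ge_one hX
  have hX1 : (1 : ℝ) ≤ X := by
    have : (3 : ℝ) ≤ X := by exact_mod_cast hX
    linarith
  refine ⟨h1, h2, h3.trans (Real.rpow_le_rpow_of_exponent_le hX1 hη), ?_, ?_, h6⟩
  · exact (mul_le_mul_of_nonneg_left (pow_le_pow_right₀ hL hC) (by linarith)).trans h4
  · exact fun q hq => ⟨(h5 q hq).1, (pow_le_pow_right₀ hL hc).trans (h5 q hq).2.1, (h5 q hq).2.2⟩

/-- the main density is nonnegative -/
theorem dens_nonneg {c₀ C B : ℕ} {X H Y J k : ℕ} {w : ℝ} {T : Finset ℕ} (h : Cond c₀ C B 1 X H Y J w T)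
    (hX : 3 ≤ X) : 0 ≤ dens k T X := by
  obtain ⟨-, -, h3, -, h5, -⟩ := h
  have hX1 : (3 : ℝ) ≤ X := by exact_mod_cast hX
  refine sum_nonneg fun q hq => ?_
  obtain ⟨g1, -, g2⟩ := h5 q hq
  have hq2 : (2 : ℝ) ≤ q := by exact_mod_cast g1.two_le
  have hqX : (q : ℝ) ≤ X := by
    rw [Real.rpow_one] at h3
    exact g2.trans h3
  have hl : 0 < Real.log q := Real.log_pos (by linarith)
  have h6 : 1 ≤ Real.log X / Real.log q := by
    rw [one_le_div hl]
    exact Real.log_le_log (by linarith) hqX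
  have h7 := Real.log_nonneg h6
  positivity

private theorem smooth_iff {X d : ℕ} (hX : 0 ≤ Real.log (Real.log X)) (hd : 1 ≤ d) :
    Smooth X d ↔ ∀ p ∈ d.primeFactors, p ≤ wX X := by
  unfold Smooth wX
  constructor
  · intro h p hp
    exact Nat.le_floor (h p (Nat.prime_of_mem_primeFactors hp) (Nat.dvd_of_mem_primeFactors hp))
  · intro h p hp hpd
    exact (Nat.le_floor_iff hX).1 (h p (Nat.mem_primeFactors.2 ⟨hp, hpd, by omega⟩))

private theorem cof_eq (k : ℕ) (hk : 2 ≤ k) (T S : Finset ℕ) (X : ℕ) (y : ℝ) (N : ℕ) (hX : 0 ≤ Real.log (Real.log X)) (hy : 0 ≤ y) :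
    cofReps k T S X y N = cA (wX X) ⌊y⌋₊ k T S N := by
  classical
  unfold cofReps cA
  congr 1
  ext s
  simp only [mem_filter]
  refine and_congr_right fun _ => ?_
  constructor
  · rintro ⟨d, n, h1, h2, h3, h4, h4', h5⟩
    have hn : 0 < n := by
      rcases Nat.eq_zero_or_pos n with h | h
      · exfalso
        rw [h, Nat.primeFactorsList_zero, List.length_nil] at h4
        omega
      · exact h
    have h7 : 0 < d * n := Nat.mul_pos h1 hn
    have h8 : N - s = d * n := by omega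
    refine ⟨by omega, d, mem_filter.2 ⟨mem_Icc.2 ⟨h1, Nat.le_floor h2⟩, (smooth_iff hX h1).1 h3⟩, ?_⟩
    rw [h8, Nat.mul_div_cancel_left _ h1]
    exact ⟨dvd_mul_right _ _, h4, h4'⟩
  · rintro ⟨h1, d, h2, h3, h4, h4'⟩
    obtain ⟨h5, h6⟩ := mem_filter.1 h2
    obtain ⟨h7, h8⟩ := mem_Icc.1 h5
    refine ⟨d, (N - s) / d, h7, (Nat.le_floor_iff hy).1 h8, (smooth_iff hX h7).2 h6, h4, h4', ?_⟩
    rw [Nat.mul_div_cancel' h3]
    omega

/-- `(wX X)^M ≤ ⌊y⌋` -/
private theorem wpow {X M : ℕ} {y : ℝ} (hX : 0 ≤ Real.log (Real.log X)) (hy : (Real.log (Real.log X)) ^ M ≤ y) : (wX X) ^ M ≤ ⌊y⌋₊ := by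
  apply Nat.le_floor
  have h1 : (wX X : ℝ) ≤ Real.log (Real.log X) := Nat.floor_le hX
  push_cast
  exact (pow_le_pow_left₀ (Nat.cast_nonneg _) h1 M).trans hy

private theorem r7_add {a b : ℝ} (ha : 0 < a) (hb : 0 ≤ b) : Real.log (a + b) ≤ Real.log a + b / a := by
  have h1 : a + b = a * (1 + b / a) := by
    field_simp
  rw [h1, Real.log_mul ha.ne' (by positivity)]
  have h2 := Real.log_le_sub_one_of_pos (show 0 < 1 + b / a by positivity)
  linarith

/-- the iterated logarithms of `2X` and `X` -/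
private theorem r7_logs (η : ℝ) (hη : 0 < η) : ∃ X0 : ℕ, ∀ X : ℕ, X0 ≤ X →
    2 ≤ Real.log X ∧ Real.log X ≤ Real.log ((2 * X : ℕ) : ℝ) ∧ Real.log ((2 * X : ℕ) : ℝ) ≤ (1 + η) * Real.log X ∧
      2 ≤ Real.log (Real.log X) ∧ Real.log (Real.log X) ≤ Real.log (Real.log ((2 * X : ℕ) : ℝ)) ∧ Real.log (Real.log ((2 * X : ℕ) : ℝ)) ≤ Real.log (Real.log X) + 1 / 2 ∧
      1 ≤ Real.log (Real.log (Real.log X)) ∧ Real.log (Real.log (Real.log X)) ≤ Real.log (Real.log (Real.log ((2 * X : ℕ) : ℝ))) ∧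
      Real.log (Real.log (Real.log ((2 * X : ℕ) : ℝ))) ≤ (1 + η) * Real.log (Real.log (Real.log X)) := by
  obtain ⟨X0, hX0⟩ := Filter.eventually_atTop.1 ((Pool.Agent.Lib.SW.LG3_log_ev (max (1 / η) 2)).and
    ((Pool.Agent.Lib.SW.LG3_loglog_ev (max (1 / η) 2)).and ((Pool.Agent.Lib.SW.LG3_log3_ev 1).and (Filter.eventually_ge_atTop 1))))
  refine ⟨X0, fun X hX => ?_⟩
  obtain ⟨h1, h2, h3, h4⟩ := hX0 X hX
  have hX1 : (1 : ℝ) ≤ X := by exact_mod_cast h4
  have e0 : ((2 * X : ℕ) : ℝ) = 2 * X := by push_cast; ring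
  rw [e0]
  have a1 : 1 / η ≤ Real.log X := (le_max_left _ _).trans h1
  have a2 : 2 ≤ Real.log X := (le_max_right _ _).trans h1
  have a3 : 1 / η ≤ Real.log (Real.log X) := (le_max_left _ _).trans h2
  have a4 : 2 ≤ Real.log (Real.log X) := (le_max_right _ _).trans h2
  have hlog2 : Real.log 2 ≤ 1 := by
    have := Real.log_two_lt_d9
    linarith
  have b0 : Real.log (2 * (X : ℝ)) = Real.log 2 + Real.log X := Real.log_mul (by norm_num) (by positivity)
  have b1 : Real.log X ≤ Real.log (2 * (X : ℝ)) := by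
    rw [b0]
    have := Real.log_nonneg (show (1 : ℝ) ≤ 2 by norm_num)
    linarith
  have b2 : Real.log (2 * (X : ℝ)) ≤ Real.log X + 1 := by
    rw [b0]
    linarith
  have b3 : Real.log (Real.log X) ≤ Real.log (Real.log (2 * (X : ℝ))) := Real.log_le_log (by linarith) b1
  have b4 : Real.log (Real.log (2 * (X : ℝ))) ≤ Real.log (Real.log X) + 1 / Real.log X :=
    (Real.log_le_log (by linarith) b2).trans (r7_add (by linarith) zero_le_one)
  have b5 : 1 / Real.log X ≤ 1 / 2 := one_div_le_one_div_of_le (by norm_num) a2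
  have b6 : Real.log (Real.log (2 * (X : ℝ))) ≤ Real.log (Real.log X) + 1 := by linarith
  have b7 : Real.log (Real.log (Real.log X)) ≤ Real.log (Real.log (Real.log (2 * (X : ℝ)))) := Real.log_le_log (by linarith) b3
  have b8 : Real.log (Real.log (Real.log (2 * (X : ℝ)))) ≤ Real.log (Real.log (Real.log X)) + 1 / Real.log (Real.log X) :=
    (Real.log_le_log (by linarith) b6).trans (r7_add (by linarith) zero_le_one)
  have c1 : 1 ≤ η * Real.log X := by
    rw [div_le_iff₀ hη] at a1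
    linarith
  have c2 : 1 / Real.log (Real.log X) ≤ η := by
    rw [div_le_iff₀ (by linarith)]
    rw [div_le_iff₀ hη] at a3
    linarith
  refine ⟨a2, b1, by nlinarith, a4, b3, by linarith, h3, b7, ?_⟩
  nlinarith

private theorem cnt_eq {S : Finset ℕ} {X : ℕ} {y : ℝ} {N : ℕ} (hX : 0 ≤ Real.log (Real.log X)) (hy : 0 ≤ y) :
    cofPrimes S X y N = Pool.Agent.Lib.MP_5d7b92_nt.UA.cnt (SmD (wX X) ⌊y⌋₊) S N := by
  classical
  unfold cofPrimes Pool.Agent.Lib.MP_5d7b92_nt.UA.cnt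
  congr 1
  ext s
  simp only [mem_filter]
  refine and_congr_right fun _ => ?_
  constructor
  · rintro ⟨d, q, h1, h2, h3, hq, hN⟩
    have hq0 := hq.pos
    have hdq : 0 < d * q := Nat.mul_pos h1 hq0
    have h5 : N - s = d * q := by omega
    refine ⟨by omega, d, mem_filter.2 ⟨mem_Icc.2 ⟨h1, Nat.le_floor h2⟩, (smooth_iff hX h1).1 h3⟩, ?_⟩
    rw [h5, Nat.mul_div_cancel_left _ h1]
    exact ⟨dvd_mul_right _ _, hq⟩
  · rintro ⟨h1, d, hd, h2, h3⟩
    obtain ⟨h5, h6⟩ := mem_filter.1 hd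
    obtain ⟨h7, h8⟩ := mem_Icc.1 h5
    refine ⟨d, (N - s) / d, h7, (Nat.le_floor_iff hy).1 h8, (smooth_iff hX h7).2 h6, h3, ?_⟩
    rw [Nat.mul_div_cancel' h2]
    omega

private theorem r7_real {cnt b Sc L L2 l3 l32 G η ε : ℝ} (hG : 0 < G) (hη : 0 < η) (hη1 : η ≤ 1) (hηε : (2 + 3 * G) * η ≤ ε)
    (hL : 0 < L) (hl3 : 0 < l3) (h1 : L ≤ L2) (h2 : L2 ≤ (1 + η) * L) (h3 : l3 ≤ l32) (h4 : l32 ≤ (1 + η) * l3) (hb : 0 ≤ b) (hbS : b ≤ Sc)
    (h : |cnt - G * l32 * b / L2| ≤ η * l32 * Sc / L2) : |cnt - G * (l3 * (b / L))| ≤ ε * (l3 * (Sc / L)) := by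
  have hL2 : 0 < L2 := by linarith
  have hS : 0 ≤ Sc := hb.trans hbS
  have k1 : l32 / L2 ≤ (1 + η) * (l3 / L) := by
    rw [div_le_iff₀ hL2]
    have : (1 + η) * (l3 / L) * L2 = (1 + η) * l3 * (L2 / L) := by ring
    rw [this]
    have h5 : 1 ≤ L2 / L := by rwa [one_le_div hL]
    have h6 : 0 ≤ (1 + η) * l3 := by positivity
    nlinarith
  have k2 : (1 - η) * (l3 / L) ≤ l32 / L2 := by
    rw [le_div_iff₀ hL2]
    have e : (1 - η) * (l3 / L) * L2 = (1 - η) * l3 * (L2 / L) := by ring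
    rw [e]
    have h5 : L2 / L ≤ 1 + η := by rwa [div_le_iff₀ hL]
    have h6 : 0 ≤ (1 - η) * l3 := mul_nonneg (by linarith) hl3.le
    have h7 : (1 - η) * l3 * (L2 / L) ≤ (1 - η) * l3 * (1 + η) := mul_le_mul_of_nonneg_left h5 h6
    nlinarith [mul_pos (mul_pos hη hη) hl3]
  have k3 : |l32 / L2 - l3 / L| ≤ η * (l3 / L) := by
    rw [abs_le]
    constructor <;> linarith
  have e1 : cnt - G * (l3 * (b / L)) = (cnt - G * l32 * b / L2) + G * b * (l32 / L2 - l3 / L) := by ring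
  rw [e1]
  refine (abs_add_le _ _).trans ?_
  have k4 : |G * b * (l32 / L2 - l3 / L)| ≤ G * Sc * (η * (l3 / L)) := by
    rw [abs_mul, abs_of_nonneg (mul_nonneg hG.le hb)]
    exact mul_le_mul (mul_le_mul_of_nonneg_left hbS hG.le) k3 (abs_nonneg _) (by positivity)
  have k5 : η * l32 * Sc / L2 ≤ η * Sc * (2 * (l3 / L)) := by
    have e2 : η * l32 * Sc / L2 = η * Sc * (l32 / L2) := by ring
    rw [e2]
    refine mul_le_mul_of_nonneg_left ?_ (by positivity)
    have : 0 ≤ l3 / L := by positivity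
    nlinarith
  have k6 : ε * (l3 * (Sc / L)) = ε * (Sc * (l3 / L)) := by ring
  have k7 : (2 + 3 * G) * η * (Sc * (l3 / L)) ≤ ε * (Sc * (l3 / L)) := mul_le_mul_of_nonneg_right hηε (by positivity)
  have k8 : 0 ≤ G * η * (Sc * (l3 / L)) := by positivity
  nlinarith

open Classical in
private theorem part7 (K : ℕ) (ε : ℝ) (hε : 0 < ε) : ∃ M X₀ : ℕ, ∀ X : ℕ, X₀ ≤ X → ∀ S : Finset ℕ, S ⊆ Icc 1 (2 * X) → X / (Real.log X) ^ K ≤ (S.card : ℝ) →
    ∀ y : ℝ, (Real.log (Real.log X)) ^ M ≤ y → y ≤ Real.log X →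
      (((Icc 1 (2 * X)).filter fun N => ε * (Real.log (Real.log (Real.log X)) * (S.card / Real.log X)) <
        |(cofPrimes S X y N : ℝ) - Real.exp Real.eulerMascheroniConstant *
          (Real.log (Real.log (Real.log X)) * ((S.filter fun s => s < N).card / Real.log X))|).card : ℝ) ≤ ε * X := by
  have hG : 0 < Real.exp Real.eulerMascheroniConstant := Real.exp_pos _
  set G := Real.exp Real.eulerMascheroniConstant with hGd
  obtain ⟨η, hη, hη1, hηε, hη2⟩ : ∃ η : ℝ, 0 < η ∧ η ≤ 1 ∧ (2 + 3 * G) * η ≤ ε ∧ 2 * η ≤ ε := by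
    refine ⟨min (ε / (2 + 3 * G)) 1, by positivity, min_le_right _ _, ?_, ?_⟩
    · calc (2 + 3 * G) * min (ε / (2 + 3 * G)) 1 ≤ (2 + 3 * G) * (ε / (2 + 3 * G)) :=
            mul_le_mul_of_nonneg_left (min_le_left _ _) (by positivity)
        _ = ε := by field_simp
    · have h1 : min (ε / (2 + 3 * G)) 1 ≤ ε / (2 + 3 * G) := min_le_left _ _
      have h2 : ε / (2 + 3 * G) ≤ ε / 2 := div_le_div_of_nonneg_left hε.le (by norm_num) (by linarith)
      linarith
  obtain ⟨C, hC, X₁, hA⟩ := Pool.Agent.Lib.MP_5d7b92_nt.UA.theoremA (K + 1) η hη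
  obtain ⟨X₂, hL⟩ := r7_logs η hη
  refine ⟨⌈2 * C⌉₊, max X₁ X₂, fun X hX S hS hK y hy1 hy2 => ?_⟩
  obtain ⟨a1, a2, a3, a4, a5, a6, a7, a8, a9⟩ := hL X ((le_max_right _ _).trans hX)
  have hl0 : 0 ≤ Real.log (Real.log (X : ℝ)) := by linarith
  have hw : |((wX X : ℕ) : ℝ) - Real.log (Real.log ((2 * X : ℕ) : ℝ))| ≤ 3 / 2 := by
    have h1 : ((wX X : ℕ) : ℝ) ≤ Real.log (Real.log X) := Nat.floor_le hl0
    have h2 : Real.log (Real.log X) < ((wX X : ℕ) : ℝ) + 1 := Nat.lt_floor_add_one _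
    rw [abs_le]
    constructor <;> linarith
  have hcard : ((2 * X : ℕ) : ℝ) / (Real.log ((2 * X : ℕ) : ℝ)) ^ (K + 1) ≤ (S.card : ℝ) := by
    refine le_trans ?_ hK
    have h1 : (Real.log X) ^ (K + 1) ≤ (Real.log ((2 * X : ℕ) : ℝ)) ^ (K + 1) := pow_le_pow_left₀ (by linarith) a2 _
    have h2 : 0 < (Real.log X) ^ (K + 1) := by positivity
    have h3 : ((2 * X : ℕ) : ℝ) / (Real.log ((2 * X : ℕ) : ℝ)) ^ (K + 1) ≤ ((2 * X : ℕ) : ℝ) / (Real.log X) ^ (K + 1) :=
      div_le_div_of_nonneg_left (Nat.cast_nonneg _) h2 h1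
    refine h3.trans ?_
    rw [div_le_div_iff₀ h2 (by positivity)]
    push_cast
    have h4 : (0 : ℝ) ≤ X * (Real.log X) ^ K := by positivity
    calc 2 * (X : ℝ) * (Real.log X) ^ K = 2 * (X * (Real.log X) ^ K) := by ring
      _ ≤ Real.log X * (X * (Real.log X) ^ K) := mul_le_mul_of_nonneg_right a1 h4
      _ = X * (Real.log X) ^ (K + 1) := by ring
  obtain ⟨B, hB, hB'⟩ := hA (2 * X) (by have := (le_max_left _ _).trans hX; omega) (wX X) hw S hS hcard
  have hy0 : 0 ≤ y := le_trans (by positivity) hy1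
  have hD1 : Pool.Agent.Lib.MP_5d7b92_nt.UA.DA C η (wX X) (2 * X) ⊆ SmD (wX X) ⌊y⌋₊ := by
    intro d hd
    unfold Pool.Agent.Lib.MP_5d7b92_nt.UA.DA at hd
    rw [mem_filter, Pool.Agent.Lib.MP_5d7b92_nt.UA.mem_DM] at hd
    obtain ⟨⟨⟨h1, -⟩, h2⟩, h3, -⟩ := hd
    refine mem_filter.2 ⟨mem_Icc.2 ⟨h1, Nat.le_floor (h3.trans (le_trans ?_ hy1))⟩, fun p hp =>
      h2 p (Nat.prime_of_mem_primeFactors hp) (Nat.dvd_of_mem_primeFactors hp)⟩
    have h4 : Real.log (Real.log ((2 * X : ℕ) : ℝ)) ≤ Real.log (Real.log X) ^ 2 := by nlinarith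
    calc Real.log (Real.log ((2 * X : ℕ) : ℝ)) ^ C ≤ (Real.log (Real.log X) ^ 2) ^ C :=
          Real.rpow_le_rpow (by linarith) h4 hC.le
      _ = Real.log (Real.log X) ^ (2 * C) := by
          rw [← Real.rpow_natCast (Real.log (Real.log (X : ℝ))) 2, ← Real.rpow_mul hl0]
          norm_num
      _ ≤ Real.log (Real.log X) ^ ((⌈2 * C⌉₊ : ℕ) : ℝ) := Real.rpow_le_rpow_of_exponent_le (by linarith) (Nat.le_ceil _)
      _ = Real.log (Real.log X) ^ ⌈2 * C⌉₊ := Real.rpow_natCast _ _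
  have hD2 : SmD (wX X) ⌊y⌋₊ ⊆ Pool.Agent.Lib.MP_5d7b92_nt.UA.DM (wX X) (2 * X) := by
    intro d hd
    obtain ⟨h1, h2⟩ := mem_filter.1 hd
    obtain ⟨h3, h4⟩ := mem_Icc.1 h1
    rw [Pool.Agent.Lib.MP_5d7b92_nt.UA.mem_DM]
    refine ⟨⟨h3, ((Nat.le_floor_iff hy0).1 h4).trans (hy2.trans a2)⟩, fun p hp hpd => h2 p (Nat.mem_primeFactors.2 ⟨hp, hpd, by omega⟩)⟩
  have hfin : (((Icc 1 (2 * X)).filter fun N => ε * (Real.log (Real.log (Real.log X)) * (S.card / Real.log X)) <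
        |(cofPrimes S X y N : ℝ) - G * (Real.log (Real.log (Real.log X)) * ((S.filter fun s => s < N).card / Real.log X))|)) ⊆ B := by
    intro N hN
    obtain ⟨hN1, hN2⟩ := mem_filter.1 hN
    by_contra hNB
    have hN3 : N ∈ Icc 1 (2 * (2 * X)) := by
      obtain ⟨h1, h2⟩ := mem_Icc.1 hN1
      exact mem_Icc.2 ⟨h1, by omega⟩
    have h1 := hB' N hN3 hNB (SmD (wX X) ⌊y⌋₊) hD1 hD2
    rw [cnt_eq hl0 hy0] at hN2
    have h2 : ((S.filter fun s => s < N).card : ℝ) ≤ (S.card : ℝ) := Nat.cast_le.2 (card_le_card (filter_subset _ _))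
    have h3 := r7_real hG hη hη1 hηε (by linarith) (by linarith) a2 a3 a8 a9 (Nat.cast_nonneg (S.filter fun s => s < N).card) h2 h1
    exact absurd hN2 (not_lt.2 h3)
  refine (Nat.cast_le.2 (card_le_card hfin)).trans (hB.trans ?_)
  push_cast
  nlinarith [Nat.cast_nonneg (α := ℝ) X]

open Classical in
private theorem part6 (K : ℕ) (ε : ℝ) (hε : 0 < ε) : ∃ M X₀ : ℕ, ∀ X : ℕ, X₀ ≤ X → ∀ S : Finset ℕ, S ⊆ Icc 1 (2 * X) →
    ∀ y : ℝ, (Real.log (Real.log X)) ^ M ≤ y → y ≤ Real.log X →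
      (((Ioc X (X + X)).filter fun N =>
        ε * (Real.log (Real.log (Real.log X)) * (S.card + X / (Real.log X) ^ K) / Real.log X) <
          |(cofPrimes S X y N : ℝ) - Real.exp Real.eulerMascheroniConstant *
            (Real.log (Real.log (Real.log X)) * (S.filter fun s => s < N).card / Real.log X)|).card : ℝ) ≤ ε * X := by
  have hG : 0 < Real.exp Real.eulerMascheroniConstant := Real.exp_pos _
  set G := Real.exp Real.eulerMascheroniConstant with hGd
  obtain ⟨δ, hδ, hδ1, hδε⟩ : ∃ δ : ℝ, 0 < δ ∧ δ ≤ 1 ∧ δ ≤ ε := ⟨min 1 ε, lt_min one_pos hε, min_le_left _ _, min_le_right _ _⟩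
  obtain ⟨M, X₁, h7⟩ := part7 (K + 1) δ hδ
  obtain ⟨X₂, h2⟩ := Filter.eventually_atTop.1 ((Pool.Agent.Lib.SW.eventually_log_ge (2 * (G + 1) / ε)).and
    (Pool.Agent.Lib.SW.eventually_log_pow (K + 1) 1 one_pos))
  obtain ⟨X₃, h3⟩ := r7_logs 1 one_pos
  refine ⟨M, max X₁ (max X₂ X₃), fun X hX S hS y hy1 hy2 => ?_⟩
  obtain ⟨a1, a2⟩ := h2 X ((le_max_left _ _).trans ((le_max_right _ _).trans hX))
  obtain ⟨b1, -, -, b4, -, -, b7, -, -⟩ := h3 X ((le_max_right _ _).trans ((le_max_right _ _).trans hX))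
  have hX0 : (0 : ℝ) ≤ X := Nat.cast_nonneg X
  have hL0 : 0 < Real.log (X : ℝ) := by linarith
  have hl3 : 0 < Real.log (Real.log (Real.log (X : ℝ))) := by linarith
  have hsub : Ioc X (X + X) ⊆ Icc 1 (2 * X) := by
    intro N hN
    obtain ⟨h4, h5⟩ := mem_Ioc.1 hN
    exact mem_Icc.2 ⟨by omega, by omega⟩
  have hq : 0 ≤ (X : ℝ) / (Real.log X) ^ K := by positivity
  rcases le_or_gt ((X : ℝ) / (Real.log X) ^ (K + 1)) (S.card : ℝ) with hc | hc
  · refine le_trans (Nat.cast_le.2 (card_le_card ?_)) ((h7 X ((le_max_left _ _).trans hX) S hS hc y hy1 hy2).trans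
      (mul_le_mul_of_nonneg_right hδε hX0))
    intro N hN
    obtain ⟨hN1, hN2⟩ := mem_filter.1 hN
    refine mem_filter.2 ⟨hsub hN1, ?_⟩
    have e1 : Real.log (Real.log (Real.log (X : ℝ))) * (((S.filter fun s => s < N).card : ℝ) / Real.log X) =
        Real.log (Real.log (Real.log X)) * (S.filter fun s => s < N).card / Real.log X := by ring
    rw [e1]
    refine lt_of_le_of_lt ?_ hN2
    have e2 : Real.log (Real.log (Real.log (X : ℝ))) * ((S.card : ℝ) / Real.log X) ≤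
        Real.log (Real.log (Real.log X)) * (S.card + X / (Real.log X) ^ K) / Real.log X := by
      rw [mul_div_assoc]
      exact mul_le_mul_of_nonneg_left (div_le_div_of_nonneg_right (by linarith) hL0.le) hl3.le
    have e3 : 0 ≤ Real.log (Real.log (Real.log (X : ℝ))) * ((S.card : ℝ) / Real.log X) := by positivity
    exact mul_le_mul hδε e2 e3 hε.le
  · have hP : 1 ≤ (X : ℝ) / (Real.log X) ^ (K + 1) := by
      rw [one_le_div (by positivity)]
      linarith
    have hP2 : (X : ℝ) / (Real.log X) ^ (K + 1) ≤ X := by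
      refine div_le_self hX0 (one_le_pow₀ (by linarith))
    obtain ⟨S0, hS1, hS2, hS3⟩ : ∃ S0 : Finset ℕ, S ⊆ S0 ∧ S0 ⊆ Icc 1 (2 * X) ∧ S0.card = ⌈(X : ℝ) / (Real.log X) ^ (K + 1)⌉₊ := by
      refine Finset.exists_subsuperset_card_eq hS ?_ ?_
      · have h4 : (S.card : ℝ) ≤ (⌈(X : ℝ) / (Real.log X) ^ (K + 1)⌉₊ : ℝ) := hc.le.trans (Nat.le_ceil _)
        exact_mod_cast h4
      · rw [Nat.card_Icc]
        refine Nat.ceil_le.2 (hP2.trans ?_)
        push_cast [Nat.add_sub_cancel]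
        linarith
    have hS4 : (X : ℝ) / (Real.log X) ^ (K + 1) ≤ (S0.card : ℝ) := by
      rw [hS3]
      exact Nat.le_ceil _
    have hS5 : (S0.card : ℝ) ≤ 2 * (X / (Real.log X) ^ (K + 1)) := by
      rw [hS3]
      have h4 := Nat.ceil_lt_add_one (show 0 ≤ (X : ℝ) / (Real.log X) ^ (K + 1) by positivity)
      linarith
    refine le_trans (Nat.cast_le.2 (card_le_card ?_)) ((h7 X ((le_max_left _ _).trans hX) S0 hS2 hS4 y hy1 hy2).trans
      (mul_le_mul_of_nonneg_right hδε hX0))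
    intro N hN
    obtain ⟨hN1, hN2⟩ := mem_filter.1 hN
    refine mem_filter.2 ⟨hsub hN1, ?_⟩
    by_contra hcon
    have h5 := not_lt.1 hcon
    refine absurd hN2 (not_lt.2 ?_)
    set l3 := Real.log (Real.log (Real.log (X : ℝ))) with hl3d
    set L := Real.log (X : ℝ) with hLd
    have k1 : (cofPrimes S X y N : ℝ) ≤ (cofPrimes S0 X y N : ℝ) := Nat.cast_le.2 (card_le_card (filter_subset_filter _ hS1))
    have k2 : ((S0.filter fun s => s < N).card : ℝ) ≤ (S0.card : ℝ) := Nat.cast_le.2 (card_le_card (filter_subset _ _))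
    have k3 : ((S.filter fun s => s < N).card : ℝ) ≤ (S.card : ℝ) := Nat.cast_le.2 (card_le_card (filter_subset _ _))
    have k4 := (abs_le.1 h5).2
    have k5 : G * (l3 * (((S0.filter fun s => s < N).card : ℝ) / L)) ≤ G * (l3 * ((S0.card : ℝ) / L)) :=
      mul_le_mul_of_nonneg_left (mul_le_mul_of_nonneg_left (div_le_div_of_nonneg_right k2 hL0.le) hl3.le) hG.le
    have k6 : l3 * ((S0.card : ℝ) / L) ≤ l3 * (2 * (X / L ^ (K + 1)) / L) :=
      mul_le_mul_of_nonneg_left (div_le_div_of_nonneg_right hS5 hL0.le) hl3.le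
    have k7 : 0 ≤ l3 * ((S0.card : ℝ) / L) := by positivity
    have k8 : (cofPrimes S0 X y N : ℝ) ≤ (G + 1) * (l3 * (2 * (X / L ^ (K + 1)) / L)) := by
      calc (cofPrimes S0 X y N : ℝ) ≤ δ * (l3 * ((S0.card : ℝ) / L)) + G * (l3 * ((S0.card : ℝ) / L)) := by linarith
        _ ≤ 1 * (l3 * ((S0.card : ℝ) / L)) + G * (l3 * ((S0.card : ℝ) / L)) := by
            have := mul_le_mul_of_nonneg_right hδ1 k7
            linarith
        _ = (G + 1) * (l3 * ((S0.card : ℝ) / L)) := by ring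
        _ ≤ (G + 1) * (l3 * (2 * (X / L ^ (K + 1)) / L)) := mul_le_mul_of_nonneg_left k6 (by linarith)
    have k9 : (G + 1) * (l3 * (2 * (X / L ^ (K + 1)) / L)) ≤ ε * (l3 * (X / L ^ K) / L) := by
      have e1 : (G + 1) * (l3 * (2 * ((X : ℝ) / L ^ (K + 1)) / L)) = (2 * (G + 1) / L) * (l3 * (X / L ^ K) / L) := by
        rw [pow_succ]
        field_simp
      rw [e1]
      refine mul_le_mul_of_nonneg_right ?_ (by positivity)
      rw [div_le_iff₀ hL0]
      rw [div_le_iff₀ hε] at a1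
      linarith
    have k10 : ε * (l3 * (X / L ^ K) / L) ≤ ε * (l3 * (S.card + X / L ^ K) / L) := by
      refine mul_le_mul_of_nonneg_left (div_le_div_of_nonneg_right (mul_le_mul_of_nonneg_left ?_ hl3.le) hL0.le) hε.le
      have : (0 : ℝ) ≤ (S.card : ℝ) := Nat.cast_nonneg _
      linarith
    have k11 : G * (l3 * ((S.filter fun s => s < N).card : ℝ) / L) ≤ (G + 1) * (l3 * (2 * (X / L ^ (K + 1)) / L)) := by
      have h8 : ((S.filter fun s => s < N).card : ℝ) ≤ 2 * (X / L ^ (K + 1)) := by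
        have : 0 ≤ (X : ℝ) / L ^ (K + 1) := by positivity
        linarith
      have h9 : l3 * ((S.filter fun s => s < N).card : ℝ) / L ≤ l3 * (2 * (X / L ^ (K + 1)) / L) := by
        rw [mul_div_assoc]
        exact mul_le_mul_of_nonneg_left (div_le_div_of_nonneg_right h8 hL0.le) hl3.le
      exact mul_le_mul (by linarith) h9 (by positivity) (by linarith)
    have k12 : (0 : ℝ) ≤ (cofPrimes S X y N : ℝ) := Nat.cast_nonneg _
    have k13 : 0 ≤ G * (l3 * ((S.filter fun s => s < N).card : ℝ) / L) := by positivity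
    rw [abs_le]
    constructor <;> linarith

/-- the number of exceptions decreases if the condition is weakened -/
private theorem floor_ok {X M M' : ℕ} {y : ℝ} (hX : 1 ≤ Real.log (Real.log X)) (hM : M' ≤ M) (hy : (Real.log (Real.log X)) ^ M ≤ y) :
    (wX X) ^ M' ≤ ⌊y⌋₊ := wpow (by linarith) ((pow_le_pow_right₀ hX hM).trans hy)

open Classical in
private theorem part5 (k K B : ℕ) (hk : 2 ≤ k) : ∃ c₀ C : ℕ, ∀ ε : ℝ, 0 < ε → ∃ (M : ℕ) (η : ℝ), 0 < η ∧ ∃ X₀ : ℕ,
    ∀ (X H Y J : ℕ) (w : ℝ) (T : Finset ℕ), X₀ ≤ X → Cond c₀ C B η X H Y J w T → ∀ S : Finset ℕ, S ⊆ Icc 1 Y →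
      ∀ y : ℝ, (Real.log (Real.log X)) ^ M ≤ y → y ≤ Real.log X →
        (((Ioc X (X + J)).filter fun N => ε * (Real.log (Real.log (Real.log X)) * (S.card + Y / (Real.log X) ^ K) * (dens k T X / Real.log X)) <
          |(cofReps k T S X y N : ℝ) - Real.exp Real.eulerMascheroniConstant *
            (Real.log (Real.log (Real.log X)) * (S.filter fun s => s < N).card * (dens k T X / Real.log X))|).card : ℝ) ≤ ε * J := by
  obtain ⟨c1, C1, h1⟩ := naW k K B hk
  obtain ⟨c2, C2, h2⟩ := naT k K B hk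
  refine ⟨max c1 c2, max C1 C2, fun ε hε => ?_⟩
  obtain ⟨M1, η1, hη1, X1, hX1⟩ := h1 ε hε
  obtain ⟨M2, η2, hη2, X2, hX2⟩ := h2 ε hε
  obtain ⟨X4, hX4⟩ := r7_logs 1 one_pos
  refine ⟨max M1 M2, min 1 (min η1 η2), by positivity, max (max 3 X4) (max X1 X2), fun X H Y J w T hX hC S hS y hy1 hy2 => ?_⟩
  have hX3 : 3 ≤ X := (le_max_left _ _).trans ((le_max_left _ _).trans hX)
  have hXa : X1 ≤ X := (le_max_left _ _).trans ((le_max_right _ _).trans hX)
  have hXb : X2 ≤ X := (le_max_right _ _).trans ((le_max_right _ _).trans hX)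
  obtain ⟨k1, -, -, k4, -, -, k7, -, -⟩ := hX4 X ((le_max_right _ _).trans ((le_max_left _ _).trans hX))
  have hL := log_ge_one hX3
  have hl2 : 0 ≤ Real.log (Real.log (X : ℝ)) := by linarith
  have hy0 : 0 ≤ y := le_trans (by positivity) hy1
  have hfl : ((⌊y⌋₊ : ℕ) : ℝ) ≤ Real.log X := (Nat.floor_le hy0).trans hy2
  have hD : 0 ≤ dens k T X := dens_nonneg (hC.mono hX3 le_rfl le_rfl (min_le_left _ _)) hX3
  have hCa := hC.mono hX3 (le_max_left c1 c2) (le_max_left C1 C2) ((min_le_right _ _).trans (min_le_left η1 η2))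
  have hCb := hC.mono hX3 (le_max_right c1 c2) (le_max_right C1 C2) ((min_le_right _ _).trans (min_le_right η1 η2))
  rcases hC.1 with ⟨hY, hJ, hH⟩ | ⟨hY, hJ, hH⟩
  · subst hY hJ
    obtain ⟨-, g2, g3, g4, g5, g6⟩ := hCa
    refine le_trans (Nat.cast_le.2 (card_le_card ?_)) (hX1 X J w T hXa g2 g3 g4 hH g5 g6 S hS ⌊y⌋₊ (floor_ok (by linarith) (le_max_left _ _) hy1) hfl)
    intro N hN
    obtain ⟨hN1, hN3⟩ := mem_filter.1 hN
    rw [cof_eq k hk T S X y N hl2 hy0] at hN3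
    refine mem_filter.2 ⟨hN1, lt_of_le_of_lt ?_ hN3⟩
    have e1 : (X : ℝ) / (Real.log X) ^ K ≤ ((2 * X : ℕ) : ℝ) / (Real.log X) ^ K := by
      refine div_le_div_of_nonneg_right ?_ (by positivity)
      push_cast
      have : (0 : ℝ) ≤ X := Nat.cast_nonneg X
      linarith
    have e3 : 0 ≤ dens k T X / Real.log X := by positivity
    exact mul_le_mul_of_nonneg_left (mul_le_mul_of_nonneg_right (mul_le_mul_of_nonneg_left (by linarith) (by linarith)) e3) hε.le
  · subst hY hJ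
    obtain ⟨-, g2, g3, g4, g5, g6⟩ := hCb
    refine le_trans (Nat.cast_le.2 (card_le_card ?_)) (hX2 J Y w T hXb g2 g3 g4 hH g5 g6 S hS ⌊y⌋₊ (floor_ok (by linarith) (le_max_right _ _) hy1) hfl)
    intro N hN
    obtain ⟨hN1, hN3⟩ := mem_filter.1 hN
    rw [cof_eq k hk T S J y N hl2 hy0] at hN3
    have hYN : Y < N := by
      have h3 := (mem_Ioc.1 hN1).1
      rcases Nat.eq_zero_or_pos Y with h0 | h0
      · omega
      · nlinarith
    have e1 : (S.filter fun s => s < N) = S := filter_true_of_mem fun s hs => (mem_Icc.1 (hS hs)).2.trans_lt hYN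
    rw [e1] at hN3
    exact mem_filter.2 ⟨by rw [two_mul]; exact hN1, hN3⟩

open Classical in
private theorem part5' (k j B : ℕ) (hk : 2 ≤ k) : ∃ c₀ C : ℕ, ∀ ε : ℝ, 0 < ε → ∃ (M : ℕ) (η : ℝ), 0 < η ∧ ∃ X₀ : ℕ,
    ∀ (X H Y J : ℕ) (w : ℝ) (T : Finset ℕ), X₀ ≤ X → Cond c₀ C B η X H Y J w T →
      ∀ y : ℝ, (Real.log (Real.log X)) ^ M ≤ y → y ≤ Real.log X →
        (((Ioc X (X + J)).filter fun N => ε * mainTerm k j T X H Y N <
          |(cofReps k T ((Icc 1 Y).filter (Indexed j)) X y N : ℝ) -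
            Real.exp Real.eulerMascheroniConstant * mainTerm k j T X H Y N|).card : ℝ) ≤ ε * J := by
  obtain ⟨c1, C1, h1⟩ := npW k j B hk
  obtain ⟨c2, C2, h2⟩ := npT k j B hk
  refine ⟨max c1 c2, max C1 C2, fun ε hε => ?_⟩
  obtain ⟨M1, η1, hη1, X1, hX1⟩ := h1 ε hε
  obtain ⟨M2, η2, hη2, X2, hX2⟩ := h2 ε hε
  obtain ⟨X4, hX4⟩ := r7_logs 1 one_pos
  refine ⟨max M1 M2, min η1 η2, by positivity, max (max 3 X4) (max X1 X2), fun X H Y J w T hX hC y hy1 hy2 => ?_⟩
  have hX3 : 3 ≤ X := (le_max_left _ _).trans ((le_max_left _ _).trans hX)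
  have hXa : X1 ≤ X := (le_max_left _ _).trans ((le_max_right _ _).trans hX)
  have hXb : X2 ≤ X := (le_max_right _ _).trans ((le_max_right _ _).trans hX)
  obtain ⟨k1, -, -, k4, -, -, k7, -, -⟩ := hX4 X ((le_max_right _ _).trans ((le_max_left _ _).trans hX))
  have hL := log_ge_one hX3
  have hL0 : 0 < Real.log X := by linarith
  have hl2 : 0 ≤ Real.log (Real.log (X : ℝ)) := by linarith
  have hy0 : 0 ≤ y := le_trans (by positivity) hy1
  have hfl : ((⌊y⌋₊ : ℕ) : ℝ) ≤ Real.log X := (Nat.floor_le hy0).trans hy2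
  have hCa := hC.mono hX3 (le_max_left c1 c2) (le_max_left C1 C2) (min_le_left η1 η2)
  have hCb := hC.mono hX3 (le_max_right c1 c2) (le_max_right C1 C2) (min_le_right η1 η2)
  have hI : Indexed j = PI j := funext fun p => propext (Indexed_iff j p)
  rcases hC.1 with ⟨hY, hJ, hH⟩ | ⟨hY, hJ, hH⟩
  · subst hY hJ
    obtain ⟨-, g2, g3, g4, g5, g6⟩ := hCa
    refine le_trans (Nat.cast_le.2 (card_le_card ?_)) (hX1 X J w T hXa g2 g3 g4 hH g5 g6 ⌊y⌋₊ (floor_ok (by linarith) (le_max_left _ _) hy1) hfl)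
    intro N hN
    obtain ⟨hN1, hN3⟩ := mem_filter.1 hN
    refine mem_filter.2 ⟨hN1, ?_⟩
    have e : mainTerm k j T X J (2 * X) N = Real.log (Real.log (Real.log X)) * (N / (Real.log X) ^ (j + 2)) * dens k T X := by
      unfold mainTerm
      rw [if_pos rfl]
      field_simp
      ring
    rw [cof_eq k hk T _ X y N hl2 hy0, e, hI] at hN3
    exact hN3
  · subst hY hJ
    obtain ⟨-, g2, g3, g4, g5, g6⟩ := hCb
    refine le_trans (Nat.cast_le.2 (card_le_card ?_)) (hX2 J Y w T hXb g2 g3 g4 hH g5 g6 ⌊y⌋₊ (floor_ok (by linarith) (le_max_right _ _) hy1) hfl)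
    intro N hN
    obtain ⟨hN1, hN3⟩ := mem_filter.1 hN
    refine mem_filter.2 ⟨by rw [two_mul]; exact hN1, ?_⟩
    have hne : Y ≠ 2 * J := by
      rintro rfl
      nlinarith
    have e : mainTerm k j T J Y Y N = Real.log (Real.log (Real.log J)) * (Y / ((Real.log Y) ^ (j + 1) * Real.log J)) *
        dens k T J := by
      unfold mainTerm
      rw [if_neg hne]
      ring
    rw [cof_eq k hk T _ J y N hl2 hy0, e, hI] at hN3
    exact hN3

open Classical in
theorem result :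
    -- (1) every set `S`, every class `a` modulo `W`
    (∀ k K B : ℕ, 2 ≤ k → ∃ c₀ C : ℕ, ∀ ε : ℝ, 0 < ε → ∃ η : ℝ, 0 < η ∧ ∃ X₀ : ℕ, ∀ (X H Y J : ℕ) (w : ℝ) (T : Finset ℕ),
      X₀ ≤ X → Cond c₀ C B η X H Y J w T → ∀ S : Finset ℕ, S ⊆ Icc 1 Y → ∀ a : ℕ,
        (((Ioc X (X + J)).filter fun N => N ≡ a [MOD W X] ∧
          ε * (ratio X * max (classCount X S a : ℝ) (Y / (Real.log X) ^ K) * (dens k T X / Real.log X)) <
            |(reps k T S N : ℝ) - ratio X * localCount X S N * (dens k T X / Real.log X)|).card : ℝ) ≤ ε * (J / W X)) ∧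
    -- (2) the (iterated) prime-indexed primes and the multiples of `W`
    (∀ k j B : ℕ, 2 ≤ k → ∃ c₀ C : ℕ, ∀ ε : ℝ, 0 < ε → ∃ η : ℝ, 0 < η ∧ ∃ X₀ : ℕ, ∀ (X H Y J : ℕ) (w : ℝ) (T : Finset ℕ),
      X₀ ≤ X → Cond c₀ C B η X H Y J w T →
        (((Ioc X (X + J)).filter fun N => W X ∣ N ∧ ε * mainTerm k j T X H Y N <
          |(reps k T ((Icc 1 Y).filter (Indexed j)) N : ℝ) - Real.exp Real.eulerMascheroniConstant * mainTerm k j T X H Y N|).card :
            ℝ) ≤ ε * (J / W X)) ∧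
    -- (3) all primes of the `j`-th class, every set of primes of density `(log X)^(-K)`, and the multiples of every `m ∣ W`
    (∀ k j K B : ℕ, 2 ≤ k → ∃ c₀ C C₁ : ℕ, ∀ ε : ℝ, 0 < ε → ∃ η : ℝ, 0 < η ∧ ∃ X₀ : ℕ, ∀ (X H Y J : ℕ) (w : ℝ) (T : Finset ℕ),
      X₀ ≤ X → Cond c₀ C B η X H Y J w T → ∀ S : Finset ℕ, Dense j K X Y S → ∀ m : ℕ, m ∣ W X →
        (1 - ε) * J * ((W X / m).totient : ℝ) / W X ≤
          (((Ioc X (X + J)).filter fun N => m ∣ N ∧ Y / (Real.log X) ^ C₁ ≤ (reps k T S N : ℝ)).card : ℝ)) ∧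
    -- this proportion cannot be improved
    (∀ ε : ℝ, 0 < ε → ∃ X₀ : ℕ, ∀ X : ℕ, X₀ ≤ X → ∃ S : Finset ℕ, (∀ s ∈ S, s.Prime ∧ s ≤ X) ∧
      (∀ Y : ℕ, Real.sqrt X ≤ Y → Y ≤ X → Y / (Real.log Y) ^ 2 ≤ ((S.filter (fun s => s ≤ Y)).card : ℝ)) ∧
      ∀ H : ℕ, (Real.log X) ^ 6 ≤ H → ∀ m : ℕ, m ∣ W X →
        (((Ioc X (X + H)).filter (fun N => m ∣ N ∧ ∃ s ∈ S, s < N ∧ Nat.Coprime (N - s) (W X))).card : ℝ) ≤
          (1 + ε) * H * ((W X / m).totient : ℝ) / W X) ∧
    -- (4) primes whose index lies in a set with bounded gaps: almost all even numbers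
    (∀ k m B : ℕ, 2 ≤ k → ∃ c₀ C C₁ : ℕ, ∀ ε : ℝ, 0 < ε → ∃ η : ℝ, 0 < η ∧ ∃ X₀ : ℕ, ∀ (X H Y J : ℕ) (w : ℝ) (T : Finset ℕ),
      X₀ ≤ X → Cond c₀ C B η X H Y J w T → ∀ I : Set ℕ, (∀ n : ℕ, n ≤ Y → ∃ b ∈ I, n < b ∧ b ≤ n + m) →
        (((Ioc X (X + J)).filter fun N => Even N ∧
          (reps k T ((Icc 1 Y).filter fun p => p.Prime ∧ Nat.primeCounting p ∈ I) N : ℝ) < Y / (Real.log X) ^ C₁).card : ℝ) ≤
            ε * J) ∧
    -- (5) almost all `N`, every set `S`, with a small cofactor `d`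
    (∀ k K B : ℕ, 2 ≤ k → ∃ c₀ C : ℕ, ∀ ε : ℝ, 0 < ε → ∃ (M : ℕ) (η : ℝ), 0 < η ∧ ∃ X₀ : ℕ,
      ∀ (X H Y J : ℕ) (w : ℝ) (T : Finset ℕ), X₀ ≤ X → Cond c₀ C B η X H Y J w T → ∀ S : Finset ℕ, S ⊆ Icc 1 Y →
        ∀ y : ℝ, (Real.log (Real.log X)) ^ M ≤ y → y ≤ Real.log X →
          (((Ioc X (X + J)).filter fun N =>
            ε * (Real.log (Real.log (Real.log X)) * (S.card + Y / (Real.log X) ^ K) * (dens k T X / Real.log X)) <
              |(cofReps k T S X y N : ℝ) - Real.exp Real.eulerMascheroniConstant *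
                (Real.log (Real.log (Real.log X)) * (S.filter fun s => s < N).card * (dens k T X / Real.log X))|).card : ℝ) ≤ ε * J) ∧
    -- the same for the (iterated) prime-indexed primes
    (∀ k j B : ℕ, 2 ≤ k → ∃ c₀ C : ℕ, ∀ ε : ℝ, 0 < ε → ∃ (M : ℕ) (η : ℝ), 0 < η ∧ ∃ X₀ : ℕ,
      ∀ (X H Y J : ℕ) (w : ℝ) (T : Finset ℕ), X₀ ≤ X → Cond c₀ C B η X H Y J w T →
        ∀ y : ℝ, (Real.log (Real.log X)) ^ M ≤ y → y ≤ Real.log X →
          (((Ioc X (X + J)).filter fun N => ε * mainTerm k j T X H Y N <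
            |(cofReps k T ((Icc 1 Y).filter (Indexed j)) X y N : ℝ) -
              Real.exp Real.eulerMascheroniConstant * mainTerm k j T X H Y N|).card : ℝ) ≤ ε * J) ∧
    -- the same with a prime in the place of the almost prime, in the range `(X, 2X]`
    (∀ (K : ℕ) (ε : ℝ), 0 < ε → ∃ M X₀ : ℕ, ∀ X : ℕ, X₀ ≤ X → ∀ S : Finset ℕ, S ⊆ Icc 1 (2 * X) →
      ∀ y : ℝ, (Real.log (Real.log X)) ^ M ≤ y → y ≤ Real.log X →
        (((Ioc X (X + X)).filter fun N =>
          ε * (Real.log (Real.log (Real.log X)) * (S.card + X / (Real.log X) ^ K) / Real.log X) <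
            |(cofPrimes S X y N : ℝ) - Real.exp Real.eulerMascheroniConstant *
              (Real.log (Real.log (Real.log X)) * (S.filter fun s => s < N).card / Real.log X)|).card : ℝ) ≤ ε * X) := by
  refine ⟨?_, ?_, ?_, ?_, ?_, fun k K B hk => part5 k K B hk, fun k j B hk => part5' k j B hk, fun K ε hε => part6 K ε hε⟩
  · intro k K B hk
    obtain ⟨c1, C1, h1⟩ := mn2 k K B hk
    obtain ⟨c2, C2, h2⟩ := mnT k K B hk
    refine ⟨max c1 c2, max C1 C2, fun ε hε => ?_⟩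
    obtain ⟨η1, hη1, X1, hX1⟩ := h1 ε hε
    obtain ⟨η2, hη2, X2, hX2⟩ := h2 ε hε
    refine ⟨min 1 (min η1 η2), by positivity, max 3 (max X1 X2), fun X H Y J w T hX hC S hS a => ?_⟩
    have hX3 : 3 ≤ X := (le_max_left _ _).trans hX
    have hXa : X1 ≤ X := (le_max_left _ _).trans ((le_max_right _ _).trans hX)
    have hXb : X2 ≤ X := (le_max_right _ _).trans ((le_max_right _ _).trans hX)
    have hL := log_ge_one hX3
    have hD : 0 ≤ dens k T X := dens_nonneg (hC.mono hX3 le_rfl le_rfl (min_le_left _ _)) hX3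
    have hr : (1 : ℝ) ≤ ratio X := one_le_cX X
    have hCa := hC.mono hX3 (le_max_left c1 c2) (le_max_left C1 C2) ((min_le_right _ _).trans (min_le_left η1 η2))
    have hCb := hC.mono hX3 (le_max_right c1 c2) (le_max_right C1 C2) ((min_le_right _ _).trans (min_le_right η1 η2))
    rcases hC.1 with ⟨hY, hJ, hH⟩ | ⟨hY, hJ, hH⟩
    · subst hY hJ
      obtain ⟨-, g2, g3, g4, g5, g6⟩ := hCa
      refine le_trans (Nat.cast_le.2 (card_le_card ?_)) (hX1 X J a w T hXa g2 g3 g4 hH g5 g6 S hS)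
      intro N hN
      obtain ⟨hN1, hN2, hN3⟩ := mem_filter.1 hN
      refine mem_filter.2 ⟨mem_filter.2 ⟨hN1, hN2⟩, lt_of_le_of_lt ?_ hN3⟩
      have e1 : (X : ℝ) / (Real.log X) ^ K ≤ ((2 * X : ℕ) : ℝ) / (Real.log X) ^ K := by
        refine div_le_div_of_nonneg_right ?_ (by positivity)
        push_cast
        have : (0 : ℝ) ≤ X := Nat.cast_nonneg X
        linarith
      have e2 : max (classCount X S a : ℝ) (X / (Real.log X) ^ K) ≤ max (classCount X S a : ℝ) (((2 * X : ℕ) : ℝ) / (Real.log X) ^ K) :=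
        max_le_max le_rfl e1
      have e3 : 0 ≤ dens k T X / Real.log X := by positivity
      exact mul_le_mul_of_nonneg_left (mul_le_mul_of_nonneg_right (mul_le_mul_of_nonneg_left e2 (zero_le_one.trans hr)) e3) hε.le
    · subst hY hJ
      obtain ⟨-, g2, g3, g4, g5, g6⟩ := hCb
      refine le_trans (Nat.cast_le.2 (card_le_card ?_)) (hX2 J Y a w T hXb g2 g3 g4 hH g5 g6 S hS)
      intro N hN
      obtain ⟨hN1, hN2, hN3⟩ := mem_filter.1 hN
      refine mem_filter.2 ⟨mem_filter.2 ⟨hN1, hN2⟩, ?_⟩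
      have hYN : Y < N := by
        have h3 := (mem_Ioc.1 hN1).1
        rcases Nat.eq_zero_or_pos Y with h0 | h0
        · omega
        · nlinarith
      have e1 : localCount J S N = (Sa (WX J) S a).card := by
        exact congrArg card (SN_eq_Sa (W := WX J) S hS hYN a hN2)
      rw [e1] at hN3
      exact hN3
  · intro k j B hk
    obtain ⟨c1, C1, h1⟩ := pjK k j B hk
    obtain ⟨c2, C2, h2⟩ := pjT k j B hk
    refine ⟨max c1 c2, max C1 C2, fun ε hε => ?_⟩
    obtain ⟨η1, hη1, X1, hX1⟩ := h1 ε hε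
    obtain ⟨η2, hη2, X2, hX2⟩ := h2 ε hε
    refine ⟨min η1 η2, by positivity, max 3 (max X1 X2), fun X H Y J w T hX hC => ?_⟩
    have hX3 : 3 ≤ X := (le_max_left _ _).trans hX
    have hXa : X1 ≤ X := (le_max_left _ _).trans ((le_max_right _ _).trans hX)
    have hXb : X2 ≤ X := (le_max_right _ _).trans ((le_max_right _ _).trans hX)
    have hL := log_ge_one hX3
    have hL0 : 0 < Real.log X := by linarith
    have hCa := hC.mono hX3 (le_max_left c1 c2) (le_max_left C1 C2) (min_le_left η1 η2)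
    have hCb := hC.mono hX3 (le_max_right c1 c2) (le_max_right C1 C2) (min_le_right η1 η2)
    have hI : Indexed j = PI j := funext fun p => propext (Indexed_iff j p)
    rcases hC.1 with ⟨hY, hJ, hH⟩ | ⟨hY, hJ, hH⟩
    · subst hY hJ
      obtain ⟨-, g2, g3, g4, g5, g6⟩ := hCa
      refine le_trans (Nat.cast_le.2 (card_le_card ?_)) (hX1 X J w T hXa g2 g3 g4 hH g5 g6)
      intro N hN
      obtain ⟨hN1, hN2, hN3⟩ := mem_filter.1 hN
      refine mem_filter.2 ⟨hN1, hN2, ?_⟩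
      have e : mainTerm k j T X J (2 * X) N = Real.log (Real.log (Real.log X)) * (N / (Real.log X) ^ (j + 2)) * dens k T X := by
        unfold mainTerm
        rw [if_pos rfl]
        field_simp
        ring
      rw [e, hI] at hN3
      exact hN3
    · subst hY hJ
      obtain ⟨-, g2, g3, g4, g5, g6⟩ := hCb
      refine le_trans (Nat.cast_le.2 (card_le_card ?_)) (hX2 J Y w T hXb g2 g3 g4 hH g5 g6)
      intro N hN
      obtain ⟨hN1, hN2, hN3⟩ := mem_filter.1 hN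
      refine mem_filter.2 ⟨by rw [two_mul]; exact hN1, hN2, ?_⟩
      have hne : Y ≠ 2 * J := by
        rintro rfl
        nlinarith
      have e : mainTerm k j T J Y Y N = Real.log (Real.log (Real.log J)) * (Y / ((Real.log Y) ^ (j + 1) * Real.log J)) *
          dens k T J := by
        unfold mainTerm
        rw [if_neg hne]
        ring
      rw [e, hI] at hN3
      exact hN3
  · intro k j K B hk
    obtain ⟨c1, C1, h1⟩ := clK k (K + 2 * j + 4) B hk
    obtain ⟨c2, C2, h2⟩ := clT k (K + 2 * j + 4) B hk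
    obtain ⟨X3, h3⟩ := PI_count j
    refine ⟨max c1 c2, max (max C1 C2) 1, K + 2 * j + 4 + B + 8, fun ε hε => ?_⟩
    obtain ⟨η1, hη1, X1, hX1⟩ := h1 ε hε
    obtain ⟨η2, hη2, X2, hX2⟩ := h2 ε hε
    obtain ⟨X4, hX4⟩ := Filter.eventually_atTop.1
      ((Real.tendsto_log_atTop.comp tendsto_natCast_atTop_atTop).eventually (Filter.eventually_ge_atTop (max (X3 : ℝ) 3)))
    refine ⟨min η1 η2, by positivity, max (max 8 (max X3 X4)) (max X1 X2), fun X H Y J w T hX hC S hS m hm => ?_⟩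
    have hX8' : 8 ≤ X := (le_max_left _ _).trans ((le_max_left _ _).trans hX)
    have hXc : X3 ≤ X := (le_max_left _ _).trans ((le_max_right _ _).trans ((le_max_left _ _).trans hX))
    have hXd : X4 ≤ X := (le_max_right _ _).trans ((le_max_right _ _).trans ((le_max_left _ _).trans hX))
    have hXa : X1 ≤ X := (le_max_left _ _).trans ((le_max_right _ _).trans hX)
    have hXb : X2 ≤ X := (le_max_right _ _).trans ((le_max_right _ _).trans hX)
    have hX3 : 3 ≤ X := le_trans (by norm_num) hX8'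
    have hX8 : (8 : ℝ) ≤ X := by exact_mod_cast hX8'
    have hL := log_ge_one hX3
    have hL3 : max (X3 : ℝ) 3 ≤ Real.log X := hX4 X hXd
    have hL2 : 2 ≤ Real.log X := le_trans (by norm_num) ((le_max_right _ _).trans hL3)
    have hX0 : (0 : ℝ) ≤ X := Nat.cast_nonneg X
    have hCa := hC.mono hX3 (le_max_left c1 c2) ((le_max_left C1 C2).trans (le_max_left _ 1)) (min_le_left η1 η2)
    have hCb := hC.mono hX3 (le_max_right c1 c2) ((le_max_right C1 C2).trans (le_max_left _ 1)) (min_le_right η1 η2)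
    have hCc := hC.mono hX3 le_rfl (le_max_right (max C1 C2) 1) le_rfl
    have hI : Indexed j = PI j := funext fun p => propext (Indexed_iff j p)
    rcases hC.1 with ⟨hY, hJ, hH⟩ | ⟨hY, hJ, hH⟩
    · subst hY hJ
      obtain ⟨-, g2, g3, g4, g5, g6⟩ := hCa
      obtain ⟨S', hS1, hS2, hS3, hS4⟩ : ∃ S' : Finset ℕ, S' ⊆ S ∧ S' ⊆ Icc 1 X ∧ (∀ s ∈ S', s.Prime) ∧
          X / (Real.log X) ^ (K + 2 * j + 4) ≤ (S'.card : ℝ) := by
        rcases hS with hS | ⟨hS, hSc⟩
        · refine ⟨(Icc 1 X).filter (PI j), ?_, filter_subset _ _, fun s hs => PI_prime j s (mem_filter.1 hs).2, ?_⟩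
          · rw [hS]
            intro s hs
            obtain ⟨hs1, hs2⟩ := mem_filter.1 hs
            refine mem_filter.2 ⟨mem_Icc.2 ⟨(mem_Icc.1 hs1).1, (mem_Icc.1 hs1).2.trans (by omega)⟩, ?_⟩
            rw [hI]
            exact hs2
          · refine le_trans ?_ (h3 X hXc)
            exact div_le_div_of_nonneg_left hX0 (by positivity) (pow_le_pow_right₀ hL (by omega))
        · refine ⟨S, Subset.rfl, fun s hs => mem_Icc.2 ⟨(hS s hs).1.one_lt.le, (hS s hs).2.1⟩, fun s hs => (hS s hs).1, ?_⟩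
          refine le_trans ?_ hSc
          have e1 : (X : ℝ) ≤ ((2 * X : ℕ) : ℝ) := by
            push_cast
            linarith
          exact (div_le_div_of_nonneg_left hX0 (by positivity) (pow_le_pow_right₀ hL (by omega))).trans
            (div_le_div_of_nonneg_right e1 (by positivity))
      refine (hX1 X J w T hXa g2 g3 g4 hH g5 g6 S' hS2 hS3 hS4 m hm).trans (Nat.cast_le.2 (card_le_card ?_))
      intro N hN
      obtain ⟨hN1, hN2, hN3⟩ := mem_filter.1 hN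
      have e0 : (cT k T S' N : ℝ) ≤ (reps k T S N : ℝ) := Nat.cast_le.2 (card_le_card (filter_subset_filter _ hS1))
      refine mem_filter.2 ⟨hN1, hN2, le_trans ?_ (hN3.trans e0)⟩
      have e : (Real.log X) ^ (K + 2 * j + 4 + B + 8) = (Real.log X) ^ (K + 2 * j + 4 + B + 7) * Real.log X := pow_succ _ _
      rw [e, div_le_div_iff₀ (by positivity) (by positivity)]
      push_cast
      have h4 : (0 : ℝ) ≤ X * (Real.log X) ^ (K + 2 * j + 4 + B + 7) := by positivity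
      nlinarith
    · subst hY hJ
      obtain ⟨-, g2, g3, g4, g5, g6⟩ := hCb
      have hYX : (Y : ℝ) ≤ J := by
        have : Y ≤ J := by nlinarith
        exact_mod_cast this
      have hLY : Real.log J ≤ Y := by
        have h5 := hCc.2.2.2.1
        rw [pow_one] at h5
        nlinarith
      have hY3 : (3 : ℝ) ≤ Y := ((le_max_right _ _).trans hL3).trans hLY
      have hYc : X3 ≤ Y := by
        have : (X3 : ℝ) ≤ Y := ((le_max_left _ _).trans hL3).trans hLY
        exact_mod_cast this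
      have hSa : S ⊆ Icc 1 Y ∧ (∀ s ∈ S, s.Prime) ∧ Y / (Real.log J) ^ (K + 2 * j + 4) ≤ (S.card : ℝ) := by
        rcases hS with hS | ⟨hS, hSc⟩
        · subst hS
          refine ⟨filter_subset _ _, fun s hs => PI_prime j s (by rw [← hI]; exact (mem_filter.1 hs).2), ?_⟩
          have h6 : (((Icc 1 Y).filter (Indexed j)).card : ℝ) = (((Icc 1 Y).filter (PI j)).card : ℝ) := by
            congr 2
            ext s
            simp only [mem_filter, hI]
          rw [h6]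
          refine le_trans ?_ (h3 Y hYc)
          have h7 : 1 ≤ Real.log Y := log_ge_one (by exact_mod_cast hY3)
          have h8 : Real.log Y ≤ Real.log J := Real.log_le_log (by linarith) hYX
          refine div_le_div_of_nonneg_left (Nat.cast_nonneg _) (by positivity) ?_
          exact (pow_le_pow_left₀ (by linarith) h8 _).trans (pow_le_pow_right₀ hL (by omega))
        · refine ⟨fun s hs => mem_Icc.2 ⟨(hS s hs).1.one_lt.le, (hS s hs).2.2⟩, fun s hs => (hS s hs).1, ?_⟩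
          refine le_trans ?_ hSc
          exact div_le_div_of_nonneg_left (Nat.cast_nonneg _) (by positivity) (pow_le_pow_right₀ hL (by omega))
      refine (hX2 J Y w T hXb g2 g3 g4 hH g5 g6 S hSa.1 hSa.2.1 hSa.2.2 m hm).trans (Nat.cast_le.2 (card_le_card ?_))
      intro N hN
      obtain ⟨hN1, hN2, hN3⟩ := mem_filter.1 hN
      refine mem_filter.2 ⟨by rw [two_mul] at hN1; exact hN1, hN2, le_trans ?_ hN3⟩
      exact div_le_div_of_nonneg_left (Nat.cast_nonneg _) (by positivity) (pow_le_pow_right₀ hL (by omega))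
  · intro ε hε
    exact ubW ε hε
  · intro k m B hk
    obtain ⟨c1, C1, D1, h1⟩ := ixK k m B hk
    obtain ⟨c2, C2, D2, h2⟩ := ixT k m B hk
    refine ⟨max c1 c2, max C1 C2, max (D1 + 1) D2, fun ε hε => ?_⟩
    obtain ⟨η1, hη1, X1, hX1⟩ := h1 ε hε
    obtain ⟨η2, hη2, X2, hX2⟩ := h2 ε hε
    refine ⟨min η1 η2, by positivity, max 8 (max X1 X2), fun X H Y J w T hX hC I hI => ?_⟩
    have hX3 : 3 ≤ X := le_trans (by norm_num) ((le_max_left _ _).trans hX)
    have hX8 : (8 : ℝ) ≤ X := by exact_mod_cast (le_max_left _ _).trans hX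
    have hXa : X1 ≤ X := (le_max_left _ _).trans ((le_max_right _ _).trans hX)
    have hXb : X2 ≤ X := (le_max_right _ _).trans ((le_max_right _ _).trans hX)
    have hL := log_ge_one hX3
    have hL2 : 2 ≤ Real.log X := by
      rw [Real.le_log_iff_exp_le (by linarith)]
      have h3 := Real.exp_one_lt_d9
      have h4 : Real.exp 2 = Real.exp 1 * Real.exp 1 := by
        rw [← Real.exp_add]
        norm_num
      have h5 := Real.exp_pos 1
      rw [h4]
      nlinarith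
    have hX0 : (0 : ℝ) ≤ X := Nat.cast_nonneg X
    have hCa := hC.mono hX3 (le_max_left c1 c2) (le_max_left C1 C2) (min_le_left η1 η2)
    have hCb := hC.mono hX3 (le_max_right c1 c2) (le_max_right C1 C2) (min_le_right η1 η2)
    have hf : ∀ Z : ℕ, ((Icc 1 Z).filter fun p => p.Prime ∧ Nat.primeCounting p ∈ I) = (Icc 1 Z).filter (ixd I) := by
      intro Z
      ext p
      simp only [mem_filter, ixd]
    rcases hC.1 with ⟨hY, hJ, hH⟩ | ⟨hY, hJ, hH⟩
    · subst hY hJ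
      obtain ⟨-, g2, g3, g4, g5, g6⟩ := hCa
      refine le_trans (Nat.cast_le.2 (card_le_card ?_)) (hX1 X J w T hXa g2 g3 g4 hH g5 g6 I hI)
      intro N hN
      obtain ⟨hN1, hN2, hN3⟩ := mem_filter.1 hN
      rw [hf] at hN3
      refine mem_filter.2 ⟨hN1, hN2, lt_of_lt_of_le hN3 ?_⟩
      have e0 : ((2 * X : ℕ) : ℝ) / (Real.log X) ^ (max (D1 + 1) D2) ≤ ((2 * X : ℕ) : ℝ) / (Real.log X) ^ (D1 + 1) :=
        div_le_div_of_nonneg_left (Nat.cast_nonneg _) (by positivity) (pow_le_pow_right₀ hL (le_max_left _ _))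
      refine e0.trans ?_
      rw [pow_succ, div_le_div_iff₀ (by positivity) (by positivity)]
      push_cast
      have h3 : (0 : ℝ) ≤ X * (Real.log X) ^ D1 := by positivity
      nlinarith
    · subst hY hJ
      obtain ⟨-, g2, g3, g4, g5, g6⟩ := hCb
      refine le_trans (Nat.cast_le.2 (card_le_card ?_)) (hX2 J Y w T hXb g2 g3 g4 hH g5 g6 I hI)
      intro N hN
      obtain ⟨hN1, hN2, hN3⟩ := mem_filter.1 hN
      rw [hf] at hN3
      refine mem_filter.2 ⟨by rw [two_mul]; exact hN1, hN2, lt_of_lt_of_le hN3 ?_⟩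
      exact div_le_div_of_nonneg_left (Nat.cast_nonneg _) (by positivity) (pow_le_pow_right₀ hL (le_max_right _ _))

end Pool.Agent.Results.MP_5d7b92_nt.WindowsOfLogLength
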